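import Mathlib

/-!
# Rearrangement of vectors: tools (Steinitz constant)
-/

set_option autoImplicit false

open Finset

namespace Pool.Agent.Helper61.Steinitz

section norm

variable {V : Type*} [AddCommGroup V] [Module ℝ V]

/-- `N` satisfies the triangle inequality and is absolutely homogeneous. -/
structure IsN (N : V → ℝ) : Prop where
  add_le : ∀ x y, N (x + y) ≤ N x + N y
  smul_eq : ∀ (c : ℝ) (x : V), N (c • x) = |c| * N x

variable {N : V → ℝ}

theorem IsN.zero (h : IsN N) : N 0 = 0 := by
  have := h.smul_eq 0 0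
  simpa using this

theorem IsN.neg (h : IsN N) (x : V) : N (-x) = N x := by
  have := h.smul_eq (-1) x
  simpa using this

theorem IsN.nonneg (h : IsN N) (x : V) : 0 ≤ N x := by
  have h1 := h.add_le x (-x)
  rw [add_neg_cancel, h.zero, h.neg] at h1
  linarith

theorem IsN.sub_le (h : IsN N) (x y : V) : N (x - y) ≤ N x + N y := by
  rw [sub_eq_add_neg]
  have := h.add_le x (-y)
  rwa [h.neg] at this

theorem IsN.sum_le (h : IsN N) {ι : Type*} (s : Finset ι) (f : ι → V) :
    N (∑ i ∈ s, f i) ≤ ∑ i ∈ s, N (f i) := by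
  classical
  induction s using Finset.induction_on with
  | empty => simp [h.zero]
  | insert a s ha ih =>
    rw [sum_insert ha, sum_insert ha]
    have := h.add_le (f a) (∑ i ∈ s, f i)
    linarith

/-- weighted sums -/
theorem IsN.sum_smul_le (h : IsN N) {ι : Type*} (s : Finset ι) (c : ι → ℝ) (f : ι → V) (M : ℝ)
    (hf : ∀ i ∈ s, N (f i) ≤ M) :
    N (∑ i ∈ s, c i • f i) ≤ (∑ i ∈ s, |c i|) * M := by
  refine (h.sum_le s _).trans ?_
  rw [sum_mul]
  apply sum_le_sum
  intro i hi
  rw [h.smul_eq]
  exact mul_le_mul_of_nonneg_left (hf i hi) (abs_nonneg _)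

end norm

section exit

variable {ι : Type*}

/-- Moving in a fixed direction: either we stay in the cube up to time `τ`, or a coordinate
reaches the boundary while all coordinates are in the cube. -/
theorem exit_lemma (F : Finset ι) (x g : ι → ℝ) (hx : ∀ i ∈ F, 0 ≤ x i ∧ x i ≤ 1)
    (τ : ℝ) (hτ : 0 ≤ τ) :
    (∀ i ∈ F, 0 ≤ x i + τ * g i ∧ x i + τ * g i ≤ 1) ∨
    ∃ t, 0 ≤ t ∧ t ≤ τ ∧ (∀ i ∈ F, 0 ≤ x i + t * g i ∧ x i + t * g i ≤ 1) ∧
      ∃ i ∈ F, (x i + t * g i = 0 ∨ x i + t * g i = 1) := by
  classical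
  by_cases hall : ∀ i ∈ F, 0 ≤ x i + τ * g i ∧ x i + τ * g i ≤ 1
  · exact Or.inl hall
  right
  let bad : Finset ι := F.filter fun i => ¬ (0 ≤ x i + τ * g i ∧ x i + τ * g i ≤ 1)
  have hbad : bad.Nonempty := by
    push Not at hall
    obtain ⟨i, hi, h⟩ := hall
    refine ⟨i, ?_⟩
    simp only [bad, mem_filter]
    refine ⟨hi, fun h' => ?_⟩
    exact absurd h'.2 (not_le.mpr (h h'.1))
  let T : ι → ℝ := fun i => if x i + τ * g i < 0 then x i / (-(g i)) else (1 - x i) / g i
  obtain ⟨i, hi, hmin⟩ := exists_min_image bad T hbad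
  have hbadmem : ∀ k ∈ bad, k ∈ F ∧ 0 ≤ T k ∧ T k ≤ τ ∧
      (x k + T k * g k = 0 ∨ x k + T k * g k = 1) ∧
      ∀ t, 0 ≤ t → t ≤ T k → 0 ≤ x k + t * g k ∧ x k + t * g k ≤ 1 := by
    intro k hk
    simp only [bad, mem_filter] at hk
    obtain ⟨hkF, hk2⟩ := hk
    obtain ⟨hx0, hx1⟩ := hx k hkF
    by_cases hlt : x k + τ * g k < 0
    · have hg : g k < 0 := by
        by_contra hcon
        push Not at hcon
        have := mul_nonneg hτ hcon
        linarith
      have hT : T k = x k / (-(g k)) := by simp only [T, if_pos hlt]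
      have hgp : 0 < -(g k) := by linarith
      have e1 : T k * (-(g k)) = x k := by rw [hT, div_mul_cancel₀ _ hgp.ne']
      refine ⟨hkF, ?_, ?_, Or.inl (by linarith), ?_⟩
      · rw [hT]; positivity
      · rw [hT, div_le_iff₀ hgp]; linarith
      · intro t ht0 htT
        have h1 : t * (-(g k)) ≤ T k * (-(g k)) := mul_le_mul_of_nonneg_right htT hgp.le
        have h2 : 0 ≤ t * (-(g k)) := mul_nonneg ht0 hgp.le
        constructor <;> linarith
    · have hgt : 1 < x k + τ * g k := by
        by_contra hcon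
        push Not at hcon hlt
        exact hk2 ⟨hlt, hcon⟩
      have hg : 0 < g k := by
        by_contra hcon
        push Not at hcon
        have : τ * g k ≤ 0 := mul_nonpos_of_nonneg_of_nonpos hτ hcon
        linarith
      have hT : T k = (1 - x k) / g k := by simp only [T, if_neg hlt]
      have e1 : T k * g k = 1 - x k := by rw [hT]; field_simp
      refine ⟨hkF, ?_, ?_, Or.inr (by linarith), ?_⟩
      · rw [hT]; apply div_nonneg <;> linarith
      · rw [hT, div_le_iff₀ hg]; linarith
      · intro t ht0 htT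
        have h1 : t * g k ≤ T k * g k := mul_le_mul_of_nonneg_right htT hg.le
        have h2 : 0 ≤ t * g k := mul_nonneg ht0 hg.le
        constructor <;> linarith
  obtain ⟨hiF, hT0, hTτ, hTb, -⟩ := hbadmem i hi
  refine ⟨T i, hT0, hTτ, ?_, i, hiF, hTb⟩
  intro k hk
  by_cases hkb : k ∈ bad
  · exact (hbadmem k hkb).2.2.2.2 (T i) hT0 (hmin k hkb)
  · have hk2 : 0 ≤ x k + τ * g k ∧ x k + τ * g k ≤ 1 := by
      by_contra hcon
      exact hkb (by simp only [bad, mem_filter]; exact ⟨hk, hcon⟩)
    obtain ⟨hx0, hx1⟩ := hx k hk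
    rcases le_total 0 (g k) with hg | hg
    · have h1 : T i * g k ≤ τ * g k := mul_le_mul_of_nonneg_right hTτ hg
      have h2 : 0 ≤ T i * g k := mul_nonneg hT0 hg
      constructor <;> linarith [hk2.2]
    · have h1 : τ * g k ≤ T i * g k := mul_le_mul_of_nonpos_right hTτ hg
      have h2 : T i * g k ≤ 0 := mul_nonpos_of_nonneg_of_nonpos hT0 hg
      constructor <;> linarith [hk2.1]

end exit

section basic

variable {κ W : Type*} [DecidableEq κ] [AddCommGroup W] [Module ℝ W] [FiniteDimensional ℝ W]

/-- The coordinates strictly between `0` and `1`. -/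
noncomputable def frac (s : Finset κ) (x : κ → ℝ) : Finset κ :=
  s.filter fun i => 0 < x i ∧ x i < 1

omit [DecidableEq κ] in
theorem linearIndependent_of (F : Finset κ) (a : κ → W)
    (hF : ∀ g : κ → ℝ, ∑ i ∈ F, g i • a i = 0 → ∀ i ∈ F, g i = 0) :
    LinearIndependent ℝ (fun i : F => a i) := by
  rw [Fintype.linearIndependent_iff]
  intro g hg i
  classical
  let g' : κ → ℝ := fun k => if h : k ∈ F then g ⟨k, h⟩ else 0
  have h1 : ∑ k ∈ F, g' k • a k = 0 := by
    rw [← Finset.sum_coe_sort F (fun k => g' k • a k)]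
    rw [← hg]
    apply sum_congr rfl
    intro k _
    simp [g']
  have h2 := hF g' h1 i i.2
  simpa [g'] using h2

omit [DecidableEq κ] in
theorem card_le_of_indep (F : Finset κ) (a : κ → W)
    (hF : ∀ g : κ → ℝ, ∑ i ∈ F, g i • a i = 0 → ∀ i ∈ F, g i = 0) :
    F.card ≤ Module.finrank ℝ W := by
  have := (linearIndependent_of F a hF).fintype_card_le_finrank
  rwa [Fintype.card_coe] at this

omit [DecidableEq κ] in
theorem span_of_indep (F : Finset κ) (a : κ → W)
    (hF : ∀ g : κ → ℝ, ∑ i ∈ F, g i • a i = 0 → ∀ i ∈ F, g i = 0)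
    (hcard : F.card = Module.finrank ℝ W) (u : W) : ∃ b : κ → ℝ, ∑ i ∈ F, b i • a i = u := by
  have hli := linearIndependent_of F a hF
  have htop := hli.span_eq_top_of_card_eq_finrank' (by rw [Fintype.card_coe, hcard])
  have hu : u ∈ Submodule.span ℝ (Set.range fun i : F => a i) := by rw [htop]; trivial
  rw [Submodule.mem_span_range_iff_exists_fun] at hu
  obtain ⟨c, hc⟩ := hu
  classical
  refine ⟨fun k => if h : k ∈ F then c ⟨k, h⟩ else 0, ?_⟩
  rw [← hc, ← Finset.sum_coe_sort F]
  apply sum_congr rfl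
  intro k _
  simp

/-- Existence of basic points, with control of one coordinate. -/
theorem basic_point (s : Finset κ) (a : κ → W) (i0 : κ) (x : κ → ℝ)
    (hx : ∀ i ∈ s, 0 ≤ x i ∧ x i ≤ 1) :
    ∃ y : κ → ℝ, (∀ i ∈ s, 0 ≤ y i ∧ y i ≤ 1) ∧ ∑ i ∈ s, y i • a i = ∑ i ∈ s, x i • a i ∧
      y i0 ≤ x i0 ∧
      ∀ g : κ → ℝ, ∑ i ∈ frac s y, g i • a i = 0 → ∀ i ∈ frac s y, g i = 0 := by
  induction hn : (frac s x).card using Nat.strong_induction_on generalizing x with
  | _ n ih =>
    by_cases hle : ∀ g : κ → ℝ, ∑ i ∈ frac s x, g i • a i = 0 → ∀ i ∈ frac s x, g i = 0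
    · exact ⟨x, hx, rfl, le_rfl, hle⟩
    push Not at hle
    obtain ⟨g, hg, i1, hi1, hgi1⟩ := hle
    -- choose the sign
    obtain ⟨g, hg, hgi1, hg0⟩ : ∃ g : κ → ℝ, (∑ i ∈ frac s x, g i • a i = 0) ∧ g i1 ≠ 0 ∧
        g i0 ≤ 0 := by
      rcases le_total (g i0) 0 with h | h
      · exact ⟨g, hg, hgi1, h⟩
      · refine ⟨-g, ?_, by simpa using hgi1, by simpa using h⟩
        simp only [Pi.neg_apply, neg_smul, sum_neg_distrib, hg, neg_zero]
    have hfr : ∀ i ∈ frac s x, i ∈ s ∧ 0 < x i ∧ x i < 1 := by
      intro i hi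
      simpa [frac] using hi
    -- the exit time
    have hτ : 0 ≤ 2 / |g i1| := by positivity
    rcases exit_lemma (frac s x) x g (fun i hi => ⟨(hfr i hi).2.1.le, (hfr i hi).2.2.le⟩)
      (2 / |g i1|) hτ with h | h
    · exfalso
      obtain ⟨h1, h2⟩ := h i1 hi1
      obtain ⟨-, h3, h4⟩ := hfr i1 hi1
      have h5 : |2 / |g i1| * g i1| = 2 := by
        rw [abs_mul, abs_div, abs_abs, abs_of_pos (by norm_num : (0:ℝ) < 2)]
        have : |g i1| ≠ 0 := abs_ne_zero.mpr hgi1
        field_simp
      have h6 : |2 / |g i1| * g i1| ≤ 1 := by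
        rw [abs_le]
        constructor <;> linarith
      linarith
    · obtain ⟨t, ht0, -, hin, i2, hi2, hb⟩ := h
      let x' : κ → ℝ := fun i => if i ∈ frac s x then x i + t * g i else x i
      have hx' : ∀ i ∈ s, 0 ≤ x' i ∧ x' i ≤ 1 := by
        intro i hi
        by_cases hif : i ∈ frac s x
        · simp only [x', if_pos hif]
          exact hin i hif
        · simp only [x', if_neg hif]
          exact hx i hi
      have hsub : frac s x' ⊂ frac s x := by
        rw [Finset.ssubset_iff_of_subset]
        · refine ⟨i2, hi2, ?_⟩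
          intro hcon
          have h1 : 0 < x' i2 ∧ x' i2 < 1 := by
            simp only [frac, mem_filter] at hcon
            exact hcon.2
          simp only [x', if_pos hi2] at h1
          rcases hb with hb | hb <;> linarith [h1.1, h1.2]
        · intro i hi
          by_contra hcon
          have h1 : i ∈ s ∧ 0 < x' i ∧ x' i < 1 := by simpa [frac] using hi
          simp only [x', if_neg hcon] at h1
          exact hcon (by simpa [frac] using h1)
      have hcard : (frac s x').card < n := by
        rw [← hn]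
        exact card_lt_card hsub
      obtain ⟨y, hy, hya, hy0, hyc⟩ := ih _ hcard x' hx' rfl
      refine ⟨y, hy, ?_, ?_, hyc⟩
      · rw [hya]
        have e1 : ∀ i ∈ s, x' i • a i = x i • a i + (if i ∈ frac s x then (t * g i) • a i else 0) := by
          intro i _
          by_cases hif : i ∈ frac s x
          · simp only [x', if_pos hif, add_smul]
          · simp only [x', if_neg hif, add_zero]
        rw [sum_congr rfl e1, sum_add_distrib, ← sum_filter]
        have e2 : (s.filter fun i => i ∈ frac s x) = frac s x := by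
          ext i
          simp only [mem_filter, frac]
          tauto
        rw [e2]
        have e3 : ∑ i ∈ frac s x, (t * g i) • a i = t • ∑ i ∈ frac s x, g i • a i := by
          rw [smul_sum]
          apply sum_congr rfl
          intro i _
          rw [mul_smul]
        rw [e3, hg, smul_zero, add_zero]
      · refine hy0.trans ?_
        by_cases hif : i0 ∈ frac s x
        · simp only [x', if_pos hif]
          have := mul_nonpos_of_nonneg_of_nonpos ht0 hg0
          linarith
        · simp only [x', if_neg hif]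
          exact le_rfl

end basic

section fins

variable {ι V : Type*} [DecidableEq ι] [AddCommGroup V] [Module ℝ V]

/-- `Fins N T v A`: the elements of `A` can be removed one after another so that all the sums of
the remaining vectors have `N`-value at most `T`. -/
inductive Fins (N : V → ℝ) (T : ℝ) (v : ι → V) : Finset ι → Prop
  | empty : Fins N T v ∅
  | step (A : Finset ι) (j : ι) (hj : j ∈ A) (hN : N (∑ i ∈ A, v i) ≤ T)
      (h : Fins N T v (A.erase j)) : Fins N T v A

/-- From removals to chains. -/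
theorem Fins.chain {N : V → ℝ} (hN : IsN N) {T : ℝ} (hT : 0 ≤ T) {v : ι → V} {A : Finset ι}
    (h : Fins N T v A) :
    ∃ B : ℕ → Finset ι, B 0 = ∅ ∧ B A.card = A ∧
      (∀ k < A.card, ∃ j ∈ A, j ∉ B k ∧ B (k + 1) = insert j (B k)) ∧
      (∀ k ≤ A.card, B k ⊆ A) ∧ (∀ k ≤ A.card, (B k).card = k) ∧
      ∀ k ≤ A.card, N (∑ i ∈ B k, v i) ≤ T := by
  induction h with
  | empty =>
    refine ⟨fun _ => ∅, rfl, rfl, ?_, ?_, ?_, ?_⟩
    · intro k hk; simp at hk
    · intro k _; simp
    · intro k hk; simp at hk; simp [hk]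
    · intro k _; simp [hN.zero, hT]
  | step A j hj hNA _ ih =>
    obtain ⟨B, h0, h1, h2, h3, h4, h5⟩ := ih
    have hcard : (A.erase j).card = A.card - 1 := card_erase_of_mem hj
    have hpos : 0 < A.card := card_pos.mpr ⟨j, hj⟩
    rw [hcard] at h1 h2 h3 h4 h5
    refine ⟨fun k => if k < A.card then B k else A, ?_, ?_, ?_, ?_, ?_, ?_⟩
    · simp only [if_pos hpos, h0]
    · simp
    · intro k hk
      simp only [if_pos hk]
      by_cases hk1 : k + 1 < A.card
      · simp only [if_pos hk1]
        obtain ⟨i, hi, hi2, hi3⟩ := h2 k (by omega)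
        exact ⟨i, mem_of_mem_erase hi, hi2, hi3⟩
      · simp only [if_neg hk1]
        have hk' : k = A.card - 1 := by omega
        rw [hk', h1]
        exact ⟨j, hj, notMem_erase j A, (insert_erase hj).symm⟩
    · intro k _
      by_cases hk1 : k < A.card
      · simp only [if_pos hk1]
        exact (h3 k (by omega)).trans (erase_subset _ _)
      · simp only [if_neg hk1]; exact subset_rfl
    · intro k hk
      by_cases hk1 : k < A.card
      · simp only [if_pos hk1]
        exact h4 k (by omega)
      · simp only [if_neg hk1]; omega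
    · intro k _
      by_cases hk1 : k < A.card
      · simp only [if_pos hk1]
        exact h5 k (by omega)
      · simp only [if_neg hk1]; exact hNA

omit [Module ℝ V] in
/-- From removals to permutations of the index set. -/
theorem Fins.list {N : V → ℝ} {T : ℝ} {v : ι → V} {A : Finset ι}
    (h : Fins N T v A) :
    ∃ l : List ι, l.Nodup ∧ l.toFinset = A ∧
      ∀ k < l.length, N ((l.drop k).map v).sum ≤ T := by
  induction h with
  | empty => exact ⟨[], List.nodup_nil, rfl, by simp⟩
  | step A j hj hNA _ ih =>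
    obtain ⟨l, hnd, hl, hs⟩ := ih
    have hjl : j ∉ l := by
      intro hcon
      have : j ∈ l.toFinset := List.mem_toFinset.mpr hcon
      rw [hl] at this
      exact notMem_erase j A this
    refine ⟨j :: l, List.nodup_cons.mpr ⟨hjl, hnd⟩, ?_, ?_⟩
    · rw [List.toFinset_cons, hl, insert_erase hj]
    · intro k hk
      cases k with
      | zero =>
        rw [List.drop_zero]
        have e1 : ((j :: l).map v).sum = ∑ i ∈ A, v i := by
          have hnd' : (j :: l).Nodup := List.nodup_cons.mpr ⟨hjl, hnd⟩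
          have e2 : (j :: l).toFinset = A := by rw [List.toFinset_cons, hl, insert_erase hj]
          rw [← e2, List.sum_toFinset v hnd']
        rw [e1]
        exact hNA
      | succ k =>
        rw [List.drop_succ_cons]
        exact hs k (by simpa using hk)

end fins

end Pool.Agent.Helper61.Steinitz
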