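import Pool.Agent.Helper61.SteinitzA

/-!
# The classical Steinitz lemma and the analysis of stuck states
-/

set_option autoImplicit false

open Finset

namespace Pool.Agent.Helper61.Steinitz

variable {ι V : Type*} [DecidableEq ι] [AddCommGroup V] [Module ℝ V] [FiniteDimensional ℝ V]

/-! ### The classical Steinitz lemma -/

/-- columns `(v_i, 1)` -/
theorem sum_smul_pair {ι V : Type*} [AddCommGroup V] [Module ℝ V] (s : Finset ι) (x : ι → ℝ)
    (v : ι → V) (c : ι → ℝ) :
    ∑ i ∈ s, x i • ((v i, c i) : V × ℝ) = (∑ i ∈ s, x i • v i, ∑ i ∈ s, x i * c i) := by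
  classical
  induction s using Finset.induction_on with
  | empty => rfl
  | insert a s ha ih =>
    rw [sum_insert ha, sum_insert ha, sum_insert ha, ih]
    simp

theorem finrank_prod_real : Module.finrank ℝ (V × ℝ) = Module.finrank ℝ V + 1 := by
  rw [Module.finrank_prod, Module.finrank_self]

/-- The classical Steinitz lemma, with the dimension as the constant. -/
theorem steinitz {N : V → ℝ} (hN : IsN N) (m : ℕ) (hm : Module.finrank ℝ V = m) (c : ℝ)
    (hc : 0 ≤ c) (v : ι → V) (A : Finset ι) (hv : ∀ i ∈ A, N (v i) ≤ c)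
    (r : ι → ℝ) (hr : ∀ i ∈ A, 0 ≤ r i ∧ r i ≤ 1) (h0 : ∑ i ∈ A, r i • v i = 0)
    (hcost : ∑ i ∈ A, (1 - r i) ≤ m) : Fins N (m * c) v A := by
  induction hn : A.card generalizing A r with
  | zero =>
    rw [card_eq_zero] at hn
    subst hn
    exact Fins.empty
  | succ n ih =>
    -- the norm of the sum
    have hnorm : N (∑ i ∈ A, v i) ≤ m * c := by
      have e1 : ∑ i ∈ A, v i = ∑ i ∈ A, (1 - r i) • v i := by
        simp only [sub_smul, one_smul, sum_sub_distrib, h0, sub_zero]
      rw [e1]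
      refine (hN.sum_smul_le A (fun i => 1 - r i) v c hv).trans ?_
      apply mul_le_mul_of_nonneg_right _ hc
      calc ∑ i ∈ A, |1 - r i| = ∑ i ∈ A, (1 - r i) := by
            apply sum_congr rfl
            intro i hi
            exact abs_of_nonneg (by linarith [(hr i hi).2])
        _ ≤ m := hcost
    -- it suffices to remove one element
    suffices hex : ∃ j ∈ A, ∃ r' : ι → ℝ, (∀ i ∈ A.erase j, 0 ≤ r' i ∧ r' i ≤ 1) ∧
        ∑ i ∈ A.erase j, r' i • v i = 0 ∧ ∑ i ∈ A.erase j, (1 - r' i) ≤ m by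
      obtain ⟨j, hj, r', h1, h2, h3⟩ := hex
      refine Fins.step A j hj hnorm ?_
      exact ih (A.erase j) (fun i hi => hv i (mem_of_mem_erase hi)) r' h1 h2 h3
        (by rw [card_erase_of_mem hj]; omega)
    have hne : A.Nonempty := card_pos.mp (by omega)
    by_cases hsmall : A.card ≤ m + 1
    · obtain ⟨j, hj⟩ := hne
      refine ⟨j, hj, fun _ => 0, fun i _ => ⟨le_rfl, zero_le_one⟩, by simp, ?_⟩
      simp only [sub_zero, sum_const, nsmul_eq_mul, mul_one]
      rw [card_erase_of_mem hj]
      have : A.card - 1 ≤ m := by omega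
      exact_mod_cast this
    · push Not at hsmall
      -- scaling
      have hcardR : (m : ℝ) + 1 < A.card := by exact_mod_cast hsmall
      have hsr : (A.card : ℝ) - m ≤ ∑ i ∈ A, r i := by
        have : ∑ i ∈ A, (1 - r i) = A.card - ∑ i ∈ A, r i := by
          rw [sum_sub_distrib]; simp
        linarith
      have hspos : 0 < ∑ i ∈ A, r i := by linarith
      let q : ℝ := ((A.card : ℝ) - m - 1) / ∑ i ∈ A, r i
      have hq0 : 0 ≤ q := by
        apply div_nonneg _ hspos.le
        linarith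
      have hq1 : q ≤ 1 := by
        rw [div_le_one hspos]; linarith
      have hqs : q * ∑ i ∈ A, r i = (A.card : ℝ) - m - 1 := by
        simp only [q]; field_simp
      obtain ⟨j0, hj0⟩ := hne
      obtain ⟨y, hy, hya, -, hyc⟩ := basic_point A (fun i => ((v i, (1:ℝ)) : V × ℝ)) j0
        (fun i => q * r i) (by
          intro i hi
          obtain ⟨a, b⟩ := hr i hi
          constructor
          · positivity
          · exact mul_le_one₀ hq1 a b)
      rw [sum_smul_pair, sum_smul_pair] at hya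
      rw [Prod.mk.injEq] at hya
      obtain ⟨hy1, hy2⟩ := hya
      have hy1' : ∑ i ∈ A, y i • v i = 0 := by
        rw [hy1]
        simp only [mul_smul]
        rw [← smul_sum, h0, smul_zero]
      have hy2' : ∑ i ∈ A, y i = (A.card : ℝ) - m - 1 := by
        simp only [mul_one] at hy2
        rw [hy2, ← mul_sum, hqs]
      have hyc := card_le_of_indep _ _ hyc
      rw [finrank_prod_real, hm] at hyc
      -- a zero coordinate
      obtain ⟨j, hj, hyj⟩ : ∃ j ∈ A, y j = 0 := by
        by_contra hcon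
        push Not at hcon
        have hpos : ∀ i ∈ A, 0 < y i := fun i hi =>
          lt_of_le_of_ne (hy i hi).1 (Ne.symm (hcon i hi))
        have h1 : ∑ i ∈ A, (1 - y i) = m + 1 := by
          rw [sum_sub_distrib, hy2', sum_const, nsmul_eq_mul]; ring
        have h2 : ∑ i ∈ A, (1 - y i) = ∑ i ∈ frac A y, (1 - y i) := by
          symm
          apply sum_subset (filter_subset _ _)
          intro i hi hif
          simp only [frac, mem_filter, not_and, not_lt] at hif
          have := hif hi (hpos i hi)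
          have h3 := (hy i hi).2
          linarith
        have h3 : ∑ i ∈ frac A y, (1 - y i) < (frac A y).card := by
          have hne2 : (frac A y).Nonempty := by
            by_contra hcon2
            rw [not_nonempty_iff_eq_empty] at hcon2
            rw [h2, hcon2] at h1
            simp at h1
            linarith
          calc ∑ i ∈ frac A y, (1 - y i) < ∑ i ∈ frac A y, (1 : ℝ) := by
                apply sum_lt_sum_of_nonempty hne2
                intro i hi
                simp only [frac, mem_filter] at hi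
                linarith [hi.2.1]
            _ = (frac A y).card := by simp
        have h4 : ((frac A y).card : ℝ) ≤ m + 1 := by exact_mod_cast hyc
        linarith
      refine ⟨j, hj, y, fun i hi => hy i (mem_of_mem_erase hi), ?_, ?_⟩
      · rw [← add_sum_erase A (fun i => y i • v i) hj, hyj, zero_smul, zero_add] at hy1'
        exact hy1'
      · have h1 : ∑ i ∈ A, (1 - y i) = m + 1 := by
          rw [sum_sub_distrib, hy2', sum_const, nsmul_eq_mul]; ring
        rw [← add_sum_erase A (fun i => 1 - y i) hj, hyj] at h1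
        linarith

/-! ### States with a ghost -/

/-- A state: the remaining set `A`, the relation `r`, and the ghost `w` of weight `σ ≤ θ`. -/
def State (N : V → ℝ) (v : ι → V) (θ T : ℝ) (A : Finset ι) : Prop :=
  ∃ (r : ι → ℝ) (w : V) (σ : ℝ), (∀ i ∈ A, 0 ≤ r i ∧ r i ≤ 1) ∧ N w ≤ σ ∧ 0 ≤ σ ∧ σ ≤ θ ∧
    ∑ i ∈ A, r i • v i + w = 0 ∧ ∑ i ∈ A, (1 - r i) + σ ≤ T

omit [DecidableEq ι] [FiniteDimensional ℝ V] in
theorem State.norm_le {N : V → ℝ} (hN : IsN N) {v : ι → V} {θ T : ℝ} {A : Finset ι}
    (hv : ∀ i ∈ A, N (v i) ≤ 1) (h : State N v θ T A) : N (∑ i ∈ A, v i) ≤ T := by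
  obtain ⟨r, w, σ, hr, hw, hσ0, hσθ, hrel, hcost⟩ := h
  have e1 : ∑ i ∈ A, v i = ∑ i ∈ A, (1 - r i) • v i - w := by
    simp only [sub_smul, one_smul, sum_sub_distrib]
    have : ∑ i ∈ A, r i • v i = -w := eq_neg_of_add_eq_zero_left hrel
    rw [this]; abel
  rw [e1]
  refine (hN.sub_le _ _).trans ?_
  have h1 := hN.sum_smul_le A (fun i => 1 - r i) v 1 hv
  have h2 : ∑ i ∈ A, |1 - r i| = ∑ i ∈ A, (1 - r i) := by
    apply sum_congr rfl
    intro i hi
    exact abs_of_nonneg (by linarith [(hr i hi).2])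
  rw [h2, mul_one] at h1
  linarith

/-- A point at level `T + 1` without ghost, all of whose coordinates are positive, with exactly
`m + 1` coordinates different from `1`, and an affine relation on these. -/
structure Vertex (v : ι → V) (m : ℕ) (θ : ℝ) (A F : Finset ι) (r : ι → ℝ) : Prop where
  sub : F ⊆ A
  card : F.card = m + 1
  pos : ∀ i ∈ F, 0 < r i ∧ r i < 1
  one : ∀ i ∈ A, i ∉ F → r i = 1
  rel : ∑ i ∈ A, r i • v i = 0
  sum : ∑ i ∈ F, r i = 1 - θ
  aff : ∃ c : ι → ℝ, ∑ i ∈ F, c i • v i = 0 ∧ ∑ i ∈ F, c i = 1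

omit [FiniteDimensional ℝ V] in
/-- Removing an element that is a zero of a ghost-free relation. -/
theorem state_of_zero {N : V → ℝ} (hN : IsN N) {v : ι → V} {θ T : ℝ} (hθ : 0 ≤ θ)
    {A : Finset ι} {r : ι → ℝ} (hr : ∀ i ∈ A, 0 ≤ r i ∧ r i ≤ 1)
    (hrel : ∑ i ∈ A, r i • v i = 0) (hcost : ∑ i ∈ A, (1 - r i) ≤ T + 1) {z : ι} (hz : z ∈ A)
    (hz0 : r z = 0) : State N v θ T (A.erase z) := by
  refine ⟨r, 0, 0, fun i hi => hr i (mem_of_mem_erase hi), by rw [hN.zero], le_rfl, hθ, ?_, ?_⟩
  · rw [← add_sum_erase A (fun i => r i • v i) hz, hz0, zero_smul, zero_add] at hrel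
    rw [hrel, zero_add]
  · rw [← add_sum_erase A (fun i => 1 - r i) hz, hz0] at hcost
    linarith

omit [FiniteDimensional ℝ V] in
/-- Removing an element and making it a ghost. -/
theorem state_of_ghost {N : V → ℝ} (hN : IsN N) {v : ι → V} {θ T : ℝ}
    {A : Finset ι} {r : ι → ℝ} (hr : ∀ i ∈ A, 0 ≤ r i ∧ r i ≤ 1)
    (hrel : ∑ i ∈ A, r i • v i = 0) {z : ι} (hz : z ∈ A) (hvz : N (v z) ≤ 1)
    (hzθ : r z ≤ θ) (hcost : ∑ i ∈ A, (1 - r i) + 2 * r z ≤ T + 1) :
    State N v θ T (A.erase z) := by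
  refine ⟨r, r z • v z, r z, fun i hi => hr i (mem_of_mem_erase hi), ?_, (hr z hz).1, hzθ, ?_, ?_⟩
  · rw [hN.smul_eq, abs_of_nonneg (hr z hz).1]
    have := mul_le_mul_of_nonneg_left hvz (hr z hz).1
    linarith
  · rw [← add_sum_erase A (fun i => r i • v i) hz] at hrel
    rw [add_comm]
    exact hrel
  · rw [← add_sum_erase A (fun i => 1 - r i) hz] at hcost
    linarith

/-- `A` is stuck: no state for `A` minus one element. -/
def Stuck (N : V → ℝ) (v : ι → V) (θ T : ℝ) (A : Finset ι) : Prop :=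
  ∀ z ∈ A, ¬ State N v θ T (A.erase z)

/-- For a stuck state the basic points at level `T + 1` have no ghost. -/
theorem exists_vertex {N : V → ℝ} (hN : IsN N) (m : ℕ) (hm : Module.finrank ℝ V = m)
    {v : ι → V} {θ : ℝ} (hθ : 0 < θ) (hθ1 : θ < 1) {A : Finset ι}
    (hst : State N v θ (m - 1 + θ) A) (hstuck : Stuck N v θ (m - 1 + θ) A)
    (hne : A.Nonempty) :
    ∃ (F : Finset ι) (r : ι → ℝ), Vertex v m θ A F r ∧
      ∀ j : ι, ∃ b : ι → ℝ, ∑ i ∈ F, b i • v i = v j ∧ ∑ i ∈ F, b i = 1 := by
  have hcard : m + 1 ≤ A.card := by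
    by_contra hcon
    push Not at hcon
    obtain ⟨z, hz⟩ := hne
    refine hstuck z hz (state_of_zero hN hθ.le (r := fun _ => 0) (fun i _ => ⟨le_rfl, zero_le_one⟩)
      (by simp) ?_ hz rfl)
    simp only [sub_zero, sum_const, nsmul_eq_mul, mul_one]
    have : (A.card : ℝ) ≤ m := by exact_mod_cast Nat.lt_succ_iff.mp hcon
    linarith
  have hcardR : (m : ℝ) + 1 ≤ A.card := by exact_mod_cast hcard
  obtain ⟨r, w, σ, hr, hw, hσ0, hσθ, hrel, hcost⟩ := hst
  have hsum1 : ∑ i ∈ A, (1 - r i) = A.card - ∑ i ∈ A, r i := by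
    rw [sum_sub_distrib]; simp
  have hden : (A.card : ℝ) - m + 1 - θ ≤ ∑ i ∈ A, r i - σ := by linarith
  have hdpos : 0 < ∑ i ∈ A, r i - σ := by linarith
  let q : ℝ := ((A.card : ℝ) - m - θ) / (∑ i ∈ A, r i - σ)
  have hq0 : 0 ≤ q := by
    apply div_nonneg _ hdpos.le
    linarith
  have hq1 : q < 1 := by
    rw [div_lt_one hdpos]; linarith
  have hqs : q * (∑ i ∈ A, r i - σ) = (A.card : ℝ) - m - θ := by
    simp only [q]; field_simp
  -- the basic point
  let a : Option ι → V × ℝ := fun o => o.elim ((w, -σ) : V × ℝ) (fun i => (v i, (1 : ℝ)))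
  let x : Option ι → ℝ := fun o => o.elim q (fun i => q * r i)
  obtain ⟨y, hy, hya, hy0, hyc⟩ := basic_point (insertNone A) a none x (by
    intro o ho
    cases o with
    | none => exact ⟨hq0, hq1.le⟩
    | some i =>
      have hi : i ∈ A := by simpa using ho
      obtain ⟨h1, h2⟩ := hr i hi
      exact ⟨mul_nonneg hq0 h1, mul_le_one₀ hq1.le h1 h2⟩)
  have hy0' : y none < 1 := lt_of_le_of_lt hy0 hq1
  have hy0'' : 0 ≤ y none := (hy none (by simp)).1
  have hyA : ∀ i ∈ A, 0 ≤ y (some i) ∧ y (some i) ≤ 1 := fun i hi => hy (some i) (by simpa using hi)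
  rw [sum_insertNone, sum_insertNone] at hya
  have e1 : ∑ i ∈ A, y (some i) • a (some i) =
      (∑ i ∈ A, y (some i) • v i, ∑ i ∈ A, y (some i) * 1) :=
    sum_smul_pair A (fun i => y (some i)) v (fun _ => 1)
  have e2 : ∑ i ∈ A, x (some i) • a (some i) =
      (∑ i ∈ A, (q * r i) • v i, ∑ i ∈ A, (q * r i) * 1) :=
    sum_smul_pair A (fun i => q * r i) v (fun _ => 1)
  rw [e1, e2] at hya
  have e3 : y none • a none = (y none • w, y none * (-σ)) := rfl
  have e4 : x none • a none = (q • w, q * (-σ)) := rfl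
  rw [e3, e4, Prod.mk_add_mk, Prod.mk_add_mk, Prod.mk.injEq] at hya
  obtain ⟨hya1, hya2⟩ := hya
  have hR : ∑ i ∈ A, y (some i) • v i + y none • w = 0 := by
    rw [add_comm, hya1]
    simp only [mul_smul]
    rw [← smul_sum, ← smul_add, add_comm, hrel, smul_zero]
  have hS : ∑ i ∈ A, y (some i) - y none * σ = (A.card : ℝ) - m - θ := by
    simp only [mul_one] at hya2
    rw [← mul_sum] at hya2
    rw [← hqs]
    linarith
  have hcost2 : ∑ i ∈ A, (1 - y (some i)) + y none * σ = m + θ := by
    rw [sum_sub_distrib, sum_const, nsmul_eq_mul]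
    linarith
  -- positivity
  have hpos : ∀ i ∈ A, 0 < y (some i) := by
    intro z hz
    by_contra hcon
    have hz0 : y (some z) = 0 := le_antisymm (not_lt.mp hcon) (hyA z hz).1
    refine hstuck z hz ⟨fun i => y (some i), y none • w, y none * σ,
      fun i hi => hyA i (mem_of_mem_erase hi), ?_, mul_nonneg hy0'' hσ0, ?_, ?_, ?_⟩
    · rw [hN.smul_eq, abs_of_nonneg hy0'']
      exact mul_le_mul_of_nonneg_left hw hy0''
    · have := mul_le_mul_of_nonneg_right hy0'.le hσ0
      linarith
    · rw [← add_sum_erase A (fun i => y (some i) • v i) hz, hz0, zero_smul, zero_add] at hR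
      exact hR
    · rw [← add_sum_erase A (fun i => 1 - y (some i)) hz, hz0] at hcost2
      linarith
  -- the fractional coordinates
  let r' : ι → ℝ := fun i => y (some i)
  let F : Finset ι := frac A r'
  have hFA : F ⊆ A := filter_subset _ _
  have hFm : ∀ i ∈ F, 0 < r' i ∧ r' i < 1 := by
    intro i hi
    have : i ∈ A ∧ 0 < r' i ∧ r' i < 1 := by simpa [F, frac] using hi
    exact this.2
  have hFone : ∀ i ∈ A, i ∉ F → r' i = 1 := by
    intro i hi hif
    have h1 : ¬ (0 < r' i ∧ r' i < 1) := fun h => hif (by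
      simp only [F, frac, mem_filter]; exact ⟨hi, h⟩)
    have h2 := hpos i hi
    have h3 := (hyA i hi).2
    by_contra hcon
    exact h1 ⟨h2, lt_of_le_of_ne h3 hcon⟩
  have hsumF : ∑ i ∈ A, (1 - r' i) = ∑ i ∈ F, (1 - r' i) := by
    symm
    apply sum_subset hFA
    intro i hi hif
    rw [hFone i hi hif]; ring
  have hyσ : y none * σ < θ := by
    rcases eq_or_lt_of_le hσ0 with h | h
    · rw [← h, mul_zero]; exact hθ
    · have := mul_lt_mul_of_pos_right hy0' h
      linarith
  have hsumF2 : (m : ℝ) < ∑ i ∈ F, (1 - r' i) := by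
    rw [← hsumF]
    change (m : ℝ) < ∑ i ∈ A, (1 - y (some i))
    linarith
  have hFne : F.Nonempty := by
    by_contra hcon
    rw [not_nonempty_iff_eq_empty] at hcon
    rw [hcon, sum_empty] at hsumF2
    have : (0:ℝ) ≤ m := Nat.cast_nonneg m
    linarith
  have hFcard1 : m + 1 ≤ F.card := by
    have h1 : ∑ i ∈ F, (1 - r' i) < ∑ i ∈ F, (1 : ℝ) :=
      sum_lt_sum_of_nonempty hFne (fun i hi => by linarith [(hFm i hi).1])
    have h2 : (m : ℝ) < F.card := by
      have : ∑ i ∈ F, (1 : ℝ) = F.card := by simp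
      linarith
    exact_mod_cast h2
  -- the map into the fractional set
  have hsub : F.map Function.Embedding.some ⊆ frac (insertNone A) y := by
    intro o ho
    rw [mem_map] at ho
    obtain ⟨i, hi, rfl⟩ := ho
    have h1 := hFm i hi
    have h2 := hFA hi
    simp only [frac, mem_filter, Function.Embedding.some_apply, mem_insertNone]
    refine ⟨?_, h1⟩
    intro b hb
    simp only [Option.mem_def, Option.some.injEq] at hb
    rw [← hb]; exact h2
  have hcard2 := card_le_of_indep _ _ hyc
  rw [finrank_prod_real, hm] at hcard2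
  have hFcard2 : F.card ≤ m + 1 := by
    have := card_le_card hsub
    rw [card_map] at this
    omega
  have hFcard : F.card = m + 1 := le_antisymm hFcard2 hFcard1
  have hy00 : y none = 0 := by
    by_contra hcon
    have h1 : 0 < y none := lt_of_le_of_ne hy0'' (Ne.symm hcon)
    have h2 : none ∈ frac (insertNone A) y := by
      simp only [frac, mem_filter]
      exact ⟨by simp, h1, hy0'⟩
    have h3 : insert none (F.map Function.Embedding.some) ⊆ frac (insertNone A) y := by
      rw [insert_subset_iff]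
      exact ⟨h2, hsub⟩
    have h4 := card_le_card h3
    rw [card_insert_of_notMem (by simp), card_map] at h4
    omega
  rw [hy00, zero_smul, add_zero] at hR
  rw [hy00, zero_mul, add_zero] at hcost2
  have hsumr : ∑ i ∈ F, r' i = 1 - θ := by
    have h1 : ∑ i ∈ F, (1 - r' i) = m + θ := by rw [← hsumF]; exact hcost2
    rw [sum_sub_distrib, sum_const, nsmul_eq_mul, hFcard] at h1
    push_cast at h1
    linarith
  -- independence
  have hind : ∀ g : ι → ℝ, ∑ i ∈ F, g i • ((v i, (1:ℝ)) : V × ℝ) = 0 → ∀ i ∈ F, g i = 0 := by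
    have heq : frac (insertNone A) y = F.map Function.Embedding.some := by
      symm
      apply eq_of_subset_of_card_le hsub
      rw [card_map, hFcard]
      exact hcard2
    intro g hg i hi
    have h1 := hyc (fun o => o.elim 0 g) (by
      rw [heq, sum_map]
      exact hg) (some i) (by rw [heq]; exact mem_map_of_mem _ hi)
    exact h1
  have hspan := span_of_indep F (fun i => ((v i, (1:ℝ)) : V × ℝ)) hind
    (by rw [hFcard, finrank_prod_real, hm])
  have hspan' : ∀ (u : V) (t : ℝ), ∃ b : ι → ℝ, ∑ i ∈ F, b i • v i = u ∧ ∑ i ∈ F, b i = t := by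
    intro u t
    obtain ⟨b, hb⟩ := hspan (u, t)
    rw [sum_smul_pair] at hb
    rw [Prod.mk.injEq] at hb
    refine ⟨b, hb.1, ?_⟩
    have := hb.2
    simpa using this
  refine ⟨F, r', ⟨hFA, hFcard, hFm, hFone, hR, hsumr, hspan' 0 1⟩, fun j => hspan' (v j) 1⟩

end Pool.Agent.Helper61.Steinitz
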