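import Pool.Agent.Helper61.SteinitzB

/-!
# Critical relations and clusters
-/

set_option autoImplicit false

open Finset

namespace Pool.Agent.Helper61.Steinitz

variable {ι V : Type*} [DecidableEq ι] [AddCommGroup V] [Module ℝ V]

/-- A critical relation: almost equal to `θ` on `F`, equal to `1` off `F`. -/
structure Critical (v : ι → V) (θ : ℝ) (A F : Finset ι) (r : ι → ℝ) : Prop where
  gt : ∀ i ∈ F, θ < r i
  le : ∀ i ∈ F, r i ≤ 1
  one : ∀ i ∈ A, i ∉ F → r i = 1
  rel : ∑ i ∈ A, r i • v i = 0
  sum : ∑ i ∈ F, r i = 1 + θ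

theorem critical_of_vertex {N : V → ℝ} (hN : IsN N) (m : ℕ) (hm2 : 2 ≤ m)
    {v : ι → V} {θ : ℝ} (hθ : 0 < θ) {A F : Finset ι} {r : ι → ℝ}
    (hv : ∀ i ∈ A, N (v i) ≤ 1) (hV : Vertex v m θ A F r)
    (hstuck : Stuck N v θ (m - 1 + θ) A) : ∃ r' : ι → ℝ, Critical v θ A F r' := by
  have hmR : (2 : ℝ) ≤ m := by exact_mod_cast hm2
  obtain ⟨hFA, hFcard, hFm, hFone, hrel, hsum, c, hc0, hc1⟩ := hV
  let R : ℝ → ι → ℝ := fun t i => if i ∈ F then r i + t * c i else r i
  have hRF : ∀ t, ∀ i ∈ F, R t i = r i + t * c i := fun t i hi => by simp only [R, if_pos hi]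
  have hRn : ∀ t, ∀ i ∈ A, i ∉ F → R t i = 1 := fun t i hi hi2 => by
    simp only [R, if_neg hi2]; exact hFone i hi hi2
  have hRrel : ∀ t, ∑ i ∈ A, R t i • v i = 0 := by
    intro t
    have e1 : ∀ i ∈ A, R t i • v i = r i • v i + (if i ∈ F then (t * c i) • v i else 0) := by
      intro i _
      by_cases hif : i ∈ F
      · simp only [R, if_pos hif, add_smul]
      · simp only [R, if_neg hif, add_zero]
    rw [sum_congr rfl e1, sum_add_distrib, ← sum_filter, hrel, zero_add]
    have e2 : (A.filter fun i => i ∈ F) = F := by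
      ext i
      simp only [mem_filter]
      exact ⟨fun h => h.2, fun h => ⟨hFA h, h⟩⟩
    rw [e2]
    have e3 : ∑ i ∈ F, (t * c i) • v i = t • ∑ i ∈ F, c i • v i := by
      rw [smul_sum]
      exact sum_congr rfl fun i _ => mul_smul _ _ _
    rw [e3, hc0, smul_zero]
  have hRsum : ∀ t, ∑ i ∈ F, R t i = 1 - θ + t := by
    intro t
    rw [sum_congr rfl (hRF t), sum_add_distrib, ← mul_sum, hsum, hc1, mul_one]
  have hRcost : ∀ t, ∑ i ∈ A, (1 - R t i) = m + θ - t := by
    intro t
    have e1 : ∑ i ∈ A, (1 - R t i) = ∑ i ∈ F, (1 - R t i) := by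
      symm
      apply sum_subset hFA
      intro i hi hif
      rw [hRn t i hi hif]; ring
    rw [e1, sum_sub_distrib, hRsum, sum_const, nsmul_eq_mul, hFcard]
    push_cast
    ring
  have hRin : ∀ t, (∀ i ∈ F, 0 ≤ r i + t * c i ∧ r i + t * c i ≤ 1) →
      ∀ i ∈ A, 0 ≤ R t i ∧ R t i ≤ 1 := by
    intro t ht i hi
    by_cases hif : i ∈ F
    · rw [hRF t i hif]; exact ht i hif
    · rw [hRn t i hi hif]; exact ⟨zero_le_one, le_rfl⟩
  rcases exit_lemma F r c (fun i hi => ⟨(hFm i hi).1.le, (hFm i hi).2.le⟩) (2 * θ)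
    (by linarith) with h | ⟨t, ht0, htθ, hin, i, hi, hb⟩
  · by_cases hall : ∀ i ∈ F, θ < R (2 * θ) i
    · refine ⟨R (2 * θ), hall, fun i hi => (hRin _ h i (hFA hi)).2, hRn _, hRrel _, ?_⟩
      rw [hRsum]; ring
    · exfalso
      push Not at hall
      obtain ⟨j, hj, hjθ⟩ := hall
      refine hstuck j (hFA hj) (state_of_ghost hN (hRin _ h) (hRrel _) (hFA hj)
        (hv j (hFA hj)) hjθ ?_)
      rw [hRcost]
      linarith
  · exfalso
    rcases hb with hb | hb
    · refine hstuck i (hFA hi) (state_of_zero hN hθ.le (hRin t hin) (hRrel t) ?_ (hFA hi) ?_)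
      · rw [hRcost]; linarith
      · rw [hRF t i hi]; exact hb
    · have hsum2 : ∑ j ∈ F.erase i, R t j = t - θ := by
        have h1 := add_sum_erase F (R t) hi
        rw [hRsum, hRF t i hi, hb] at h1
        linarith
      have hcard2 : (F.erase i).card = m := by rw [card_erase_of_mem hi, hFcard]; rfl
      have hne2 : (F.erase i).Nonempty := card_pos.mp (by omega)
      have hmpos : (0:ℝ) < m := by linarith
      obtain ⟨j, hj, hjle⟩ := exists_le_of_sum_le (s := F.erase i) (f := R t)
        (g := fun _ => (t - θ) / m) hne2 (by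
          rw [hsum2, sum_const, nsmul_eq_mul, hcard2]
          exact le_of_eq (by field_simp))
      have hjF : j ∈ F := mem_of_mem_erase hj
      have hj0 : 0 ≤ R t j := (hRin t hin j (hFA hjF)).1
      have htθ0 : 0 ≤ t - θ := by
        rw [← hsum2]
        exact sum_nonneg fun k hk => (hRin t hin k (hFA (mem_of_mem_erase hk))).1
      have h2 : (t - θ) / m ≤ (t - θ) / 2 := by
        apply div_le_div_of_nonneg_left htθ0 (by norm_num) hmR
      refine hstuck j (hFA hjF) (state_of_ghost hN (hRin t hin) (hRrel t) (hFA hjF)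
        (hv j (hFA hjF)) ?_ ?_)
      · linarith
      · rw [hRcost]
        linarith

/-- Two critical relations on neighbouring bases: the exchanged vectors are close. -/
theorem close_of_critical {N : V → ℝ} (hN : IsN N) (m : ℕ)
    {v : ι → V} {θ : ℝ} (hθ : 0 < θ) (hθ1 : θ < 1) {A F : Finset ι} {r r' : ι → ℝ}
    (hv : ∀ i ∈ A, N (v i) ≤ 1) (hFA : F ⊆ A) (hFcard : F.card = m + 1)
    {i j : ι} (hi : i ∈ F) (hj : j ∈ A) (hjF : j ∉ F)
    (hr : Critical v θ A F r) (hr' : Critical v θ A (insert j (F.erase i)) r') :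
    (1 - θ) * N (v j - v i) ≤ 2 * (1 - m * θ) := by
  have hij : i ≠ j := fun h => hjF (h ▸ hi)
  set F' := insert j (F.erase i) with hF'
  have hjE : j ∉ F.erase i := fun h => hjF (mem_of_mem_erase h)
  have hiF' : i ∉ F' := by
    rw [hF', mem_insert, mem_erase]
    rintro (h | h)
    · exact hij h
    · exact h.1 rfl
  have hjF' : j ∈ F' := mem_insert_self _ _
  have hF'card : F'.card = m + 1 := by
    rw [hF', card_insert_of_notMem hjE, card_erase_of_mem hi, hFcard]; rfl
  -- the difference of the relations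
  have hdiff : ∑ k ∈ A, (r' k - r k) • v k = 0 := by
    simp only [sub_smul, sum_sub_distrib, hr.rel, hr'.rel, sub_zero]
  have hsub : insert j F ⊆ A := insert_subset_iff.mpr ⟨hj, hFA⟩
  have hdiff2 : ∑ k ∈ insert j F, (r' k - r k) • v k = 0 := by
    rw [← hdiff]
    apply sum_subset hsub
    intro k hk hkn
    rw [mem_insert, not_or] at hkn
    have h1 : r k = 1 := hr.one k hk hkn.2
    have h2 : r' k = 1 := hr'.one k hk (by
      rw [hF', mem_insert, mem_erase]
      rintro (h | h)
      · exact hkn.1 h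
      · exact hkn.2 h.2)
    rw [h1, h2, sub_self, zero_smul]
  rw [sum_insert hjF, ← add_sum_erase F (fun k => (r' k - r k) • v k) hi] at hdiff2
  have hrj : r j = 1 := hr.one j hj hjF
  have hr'i : r' i = 1 := hr'.one i (hFA hi) hiF'
  rw [hrj, hr'i] at hdiff2
  -- the main identity
  have hmain : (1 - θ) • (v j - v i) = (r' j - θ) • v j - (r i - θ) • v i +
      ∑ k ∈ F.erase i, (r' k - r k) • v k := by
    have e : ∑ k ∈ F.erase i, (r' k - r k) • v k = -((r' j - 1) • v j) - (1 - r i) • v i := by
      have h3 := hdiff2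
      rw [← add_assoc] at h3
      rw [eq_neg_of_add_eq_zero_right h3]
      abel
    rw [e]
    simp only [sub_smul, smul_sub, one_smul]
    abel
  have hN1 : N ((1 - θ) • (v j - v i)) = (1 - θ) * N (v j - v i) := by
    rw [hN.smul_eq, abs_of_pos (by linarith)]
  rw [← hN1, hmain]
  have hb1 : N ((r' j - θ) • v j) ≤ r' j - θ := by
    rw [hN.smul_eq, abs_of_pos (by linarith [hr'.gt j hjF'])]
    have := mul_le_mul_of_nonneg_left (hv j hj) (by linarith [hr'.gt j hjF'] : 0 ≤ r' j - θ)
    linarith
  have hb2 : N ((r i - θ) • v i) ≤ r i - θ := by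
    rw [hN.smul_eq, abs_of_pos (by linarith [hr.gt i hi])]
    have := mul_le_mul_of_nonneg_left (hv i (hFA hi)) (by linarith [hr.gt i hi] : 0 ≤ r i - θ)
    linarith
  have hb3 : N (∑ k ∈ F.erase i, (r' k - r k) • v k) ≤
      ∑ k ∈ F.erase i, ((r' k - θ) + (r k - θ)) := by
    have h1 := hN.sum_smul_le (F.erase i) (fun k => r' k - r k) v 1
      (fun k hk => hv k (hFA (mem_of_mem_erase hk)))
    rw [mul_one] at h1
    refine h1.trans ?_
    apply sum_le_sum
    intro k hk
    have hkF : k ∈ F := mem_of_mem_erase hk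
    have hkF' : k ∈ F' := mem_insert_of_mem hk
    have h2 := hr.gt k hkF
    have h3 := hr'.gt k hkF'
    rw [abs_le]
    constructor <;> linarith
  have hs1 : (r i - θ) + ∑ k ∈ F.erase i, (r k - θ) = 1 - m * θ := by
    rw [add_sum_erase F (fun k => r k - θ) hi, sum_sub_distrib, hr.sum, sum_const, nsmul_eq_mul,
      hFcard]
    push_cast
    ring
  have hs2 : (r' j - θ) + ∑ k ∈ F.erase i, (r' k - θ) = 1 - m * θ := by
    have h1 := sum_insert (f := fun k => r' k - θ) hjE
    rw [← h1, sum_sub_distrib, ← hF', hr'.sum, sum_const, nsmul_eq_mul, hF'card]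
    push_cast
    ring
  rw [sum_add_distrib] at hb3
  have h4 := hN.add_le ((r' j - θ) • v j - (r i - θ) • v i) (∑ k ∈ F.erase i, (r' k - r k) • v k)
  have h5 := hN.sub_le ((r' j - θ) • v j) ((r i - θ) • v i)
  linarith

/-- In a stuck state every vector is close to one of the vectors of the basis. -/
theorem exists_close {N : V → ℝ} (hN : IsN N) (m : ℕ) (hm2 : 2 ≤ m)
    {v : ι → V} {θ : ℝ} (hθ : 0 < θ) (hθ1 : θ < 1) {A F : Finset ι} {r : ι → ℝ}
    (hv : ∀ i ∈ A, N (v i) ≤ 1) (hV : Vertex v m θ A F r)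
    (hstuck : Stuck N v θ (m - 1 + θ) A) {j : ι} (hj : j ∈ A) (hjF : j ∉ F)
    (hb : ∃ b : ι → ℝ, ∑ i ∈ F, b i • v i = v j ∧ ∑ i ∈ F, b i = 1) :
    ∃ i ∈ F, (1 - θ) * N (v j - v i) ≤ 2 * (1 - m * θ) := by
  obtain ⟨r0, hr0⟩ := critical_of_vertex hN m hm2 hθ hv hV hstuck
  obtain ⟨hFA, hFcard, hFm, hFone, hrel, hsum, c, hc0, hc1⟩ := hV
  obtain ⟨b, hb0, hb1⟩ := hb
  let R : ℝ → ι → ℝ := fun t i => if i ∈ F then r i + t * b i else if i = j then 1 - t else r i
  have hRF : ∀ t, ∀ i ∈ F, R t i = r i + t * b i := fun t i hi => by simp only [R, if_pos hi]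
  have hRj : ∀ t, R t j = 1 - t := fun t => by simp only [R, if_neg hjF, if_true]
  have hRn : ∀ t, ∀ i ∈ A, i ∉ F → i ≠ j → R t i = 1 := fun t i hi hi2 hi3 => by
    simp only [R, if_neg hi2, if_neg hi3]; exact hFone i hi hi2
  have hsub : insert j F ⊆ A := insert_subset_iff.mpr ⟨hj, hFA⟩
  have hsplit : ∀ (t : ℝ), ∀ i ∈ A, R t i = r i + (if i ∈ insert j F then R t i - r i else 0) := by
    intro t i hi
    by_cases h : i ∈ insert j F
    · rw [if_pos h]; ring
    · rw [if_neg h, add_zero]
      rw [mem_insert, not_or] at h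
      rw [hRn t i hi h.2 h.1, hFone i hi h.2]
  have hrj : r j = 1 := hFone j hj hjF
  have hRrel : ∀ t, ∑ i ∈ A, R t i • v i = 0 := by
    intro t
    have e1 : ∀ i ∈ A, R t i • v i =
        r i • v i + (if i ∈ insert j F then (R t i - r i) • v i else 0) := by
      intro i hi
      by_cases h : i ∈ insert j F
      · rw [if_pos h, ← add_smul]; congr 1; ring
      · rw [if_neg h, add_zero]
        rw [mem_insert, not_or] at h
        rw [hRn t i hi h.2 h.1, hFone i hi h.2]
    rw [sum_congr rfl e1, sum_add_distrib, ← sum_filter, hrel, zero_add]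
    have e2 : (A.filter fun i => i ∈ insert j F) = insert j F := by
      ext i
      simp only [mem_filter]
      exact ⟨fun h => h.2, fun h => ⟨hsub h, h⟩⟩
    rw [e2, sum_insert hjF, hRj, hrj]
    have e3 : ∑ i ∈ F, (R t i - r i) • v i = t • ∑ i ∈ F, b i • v i := by
      rw [smul_sum]
      apply sum_congr rfl
      intro i hi
      rw [hRF t i hi, ← mul_smul]
      congr 1
      ring
    rw [e3, hb0, ← add_smul]
    have : (1 - t - 1 + t : ℝ) = 0 := by ring
    rw [this, zero_smul]
  have hRcost : ∀ t, ∑ i ∈ A, (1 - R t i) = m + θ := by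
    intro t
    have e0 : ∑ i ∈ A, (1 - r i) = m + θ := by
      have e1 : ∑ i ∈ A, (1 - r i) = ∑ i ∈ F, (1 - r i) := by
        symm
        apply sum_subset hFA
        intro i hi hif
        rw [hFone i hi hif]; ring
      rw [e1, sum_sub_distrib, hsum, sum_const, nsmul_eq_mul, hFcard]
      push_cast
      ring
    have e1 : ∑ i ∈ A, (1 - R t i) = ∑ i ∈ A, (1 - r i) -
        ∑ i ∈ A, (if i ∈ insert j F then R t i - r i else 0) := by
      rw [← sum_sub_distrib]
      apply sum_congr rfl
      intro i hi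
      have := hsplit t i hi
      linarith
    rw [e1, e0, ← sum_filter]
    have e2 : (A.filter fun i => i ∈ insert j F) = insert j F := by
      ext i
      simp only [mem_filter]
      exact ⟨fun h => h.2, fun h => ⟨hsub h, h⟩⟩
    rw [e2, sum_insert hjF, hRj, hrj]
    have e3 : ∑ i ∈ F, (R t i - r i) = t := by
      have : ∀ i ∈ F, R t i - r i = t * b i := by
        intro i hi
        rw [hRF t i hi]; ring
      rw [sum_congr rfl this, ← mul_sum, hb1, mul_one]
    rw [e3]
    ring
  have hRin : ∀ t, 0 ≤ t → t ≤ 1 → (∀ i ∈ F, 0 ≤ r i + t * b i ∧ r i + t * b i ≤ 1) →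
      ∀ i ∈ A, 0 ≤ R t i ∧ R t i ≤ 1 := by
    intro t ht0 ht1 ht i hi
    by_cases hif : i ∈ F
    · rw [hRF t i hif]; exact ht i hif
    · by_cases hij : i = j
      · subst hij
        rw [hRj]
        constructor <;> linarith
      · rw [hRn t i hi hif hij]; exact ⟨zero_le_one, le_rfl⟩
  have hzero : ∀ t, 0 ≤ t → t ≤ 1 → (∀ i ∈ F, 0 ≤ r i + t * b i ∧ r i + t * b i ≤ 1) →
      ∀ z ∈ A, R t z ≠ 0 := by
    intro t ht0 ht1 ht z hz hz0
    refine hstuck z hz (state_of_zero hN hθ.le (hRin t ht0 ht1 ht) (hRrel t) ?_ hz hz0)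
    rw [hRcost]
    linarith
  rcases exit_lemma F r b (fun i hi => ⟨(hFm i hi).1.le, (hFm i hi).2.le⟩) 1
    zero_le_one with h | ⟨t, ht0, ht1, hin, i, hi, hbd⟩
  · exfalso
    refine hzero 1 zero_le_one le_rfl h j hj ?_
    rw [hRj]; ring
  · have hnz := hzero t ht0 ht1 hin
    have hi1 : r i + t * b i = 1 := by
      rcases hbd with hbd | hbd
      · exfalso
        exact hnz i (hFA hi) (by rw [hRF t i hi]; exact hbd)
      · exact hbd
    have ht1' : t < 1 := by
      rcases lt_or_eq_of_le ht1 with h | h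
      · exact h
      · exfalso
        refine hnz j hj ?_
        rw [hRj, h]; ring
    have htb : 0 < t * b i := by linarith [(hFm i hi).2]
    have ht0' : 0 < t := by
      rcases lt_or_eq_of_le ht0 with h | h
      · exact h
      · rw [← h, zero_mul] at htb
        exact absurd htb (lt_irrefl _)
    have hbi : b i ≠ 0 := by
      intro h
      rw [h, mul_zero] at htb
      exact absurd htb (lt_irrefl _)
    have hij : i ≠ j := fun h => hjF (h ▸ hi)
    set F' := insert j (F.erase i) with hF'
    have hjE : j ∉ F.erase i := fun h => hjF (mem_of_mem_erase h)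
    have hF'A : F' ⊆ A := by
      rw [hF', insert_subset_iff]
      exact ⟨hj, (erase_subset _ _).trans hFA⟩
    have hF'card : F'.card = m + 1 := by
      rw [hF', card_insert_of_notMem hjE, card_erase_of_mem hi, hFcard]; rfl
    -- the cost on F'
    have hF'cost : ∑ k ∈ F', (1 - R t k) = m + θ := by
      rw [← hRcost t]
      apply sum_subset hF'A
      intro k hk hkn
      rw [hF', mem_insert, mem_erase, not_or, not_and_or, not_not] at hkn
      rcases hkn.2 with h1 | h1
      · rw [h1, hRF t i hi, hi1]; ring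
      · rw [hRn t k hk h1 hkn.1]; ring
    have hpos : ∀ k ∈ A, 0 < R t k := by
      intro k hk
      exact lt_of_le_of_ne (hRin t ht0 ht1 hin k hk).1 (Ne.symm (hnz k hk))
    have hlt1 : ∀ k ∈ F', R t k < 1 := by
      intro k hk
      by_contra hcon
      have hk1 : R t k = 1 := le_antisymm (hRin t ht0 ht1 hin k (hF'A hk)).2 (not_lt.mp hcon)
      have h1 := add_sum_erase F' (fun k => 1 - R t k) hk
      simp only [hk1, sub_self, zero_add] at h1
      have h2 : ∑ l ∈ F'.erase k, (1 - R t l) ≤ ∑ l ∈ F'.erase k, (1 : ℝ) := by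
        apply sum_le_sum
        intro l hl
        linarith [hpos l (hF'A (mem_of_mem_erase hl))]
      rw [h1, hF'cost, sum_const, nsmul_eq_mul, card_erase_of_mem hk, hF'card] at h2
      push_cast at h2
      simp only [Nat.add_sub_cancel, mul_one] at h2
      linarith
    have hV' : Vertex v m θ A F' (R t) := by
      refine ⟨hF'A, hF'card, fun k hk => ⟨hpos k (hF'A hk), hlt1 k hk⟩, ?_, hRrel t, ?_, ?_⟩
      · intro k hk hkn
        rw [hF', mem_insert, mem_erase, not_or, not_and_or, not_not] at hkn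
        rcases hkn.2 with h1 | h1
        · rw [h1, hRF t i hi, hi1]
        · exact hRn t k hk h1 hkn.1
      · rw [sum_sub_distrib, sum_const, nsmul_eq_mul, hF'card] at hF'cost
        push_cast at hF'cost
        linarith
      · refine ⟨fun k => if k = j then c i / b i else c k - c i / b i * b k, ?_, ?_⟩
        · rw [hF', sum_insert hjE]
          simp only [if_true]
          have e1 : ∀ k ∈ F.erase i, (if k = j then c i / b i else c k - c i / b i * b k) • v k =
              c k • v k - (c i / b i) • (b k • v k) := by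
            intro k hk
            have : k ≠ j := fun h => hjE (h ▸ hk)
            rw [if_neg this, sub_smul, mul_smul]
          rw [sum_congr rfl e1, sum_sub_distrib, ← smul_sum]
          have e2 : ∑ k ∈ F.erase i, c k • v k = -(c i • v i) := by
            rw [← add_sum_erase F (fun k => c k • v k) hi] at hc0
            exact eq_neg_of_add_eq_zero_right hc0
          have e3 : ∑ k ∈ F.erase i, b k • v k = v j - b i • v i := by
            rw [← add_sum_erase F (fun k => b k • v k) hi] at hb0
            rw [← hb0]; abel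
          rw [e2, e3, smul_sub, ← mul_smul, div_mul_cancel₀ _ hbi]
          abel
        · rw [hF', sum_insert hjE]
          simp only [if_true]
          have e1 : ∀ k ∈ F.erase i, (if k = j then c i / b i else c k - c i / b i * b k) =
              c k - (c i / b i) * b k := by
            intro k hk
            have : k ≠ j := fun h => hjE (h ▸ hk)
            rw [if_neg this]
          rw [sum_congr rfl e1, sum_sub_distrib, ← mul_sum]
          have e2 : ∑ k ∈ F.erase i, c k = 1 - c i := by
            rw [← add_sum_erase F c hi] at hc1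
            linarith
          have e3 : ∑ k ∈ F.erase i, b k = 1 - b i := by
            rw [← add_sum_erase F b hi] at hb1
            linarith
          rw [e2, e3]
          field_simp
          ring
    obtain ⟨r1, hr1⟩ := critical_of_vertex hN m hm2 hθ hv hV' hstuck
    exact ⟨i, hi, close_of_critical hN m hθ hθ1 hv hFA hFcard hi hj hjF hr0 hr1⟩

end Pool.Agent.Helper61.Steinitz
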