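import Pool.Agent.Helper61.SteinitzC

/-!
# The numerical path for nearly exact clusters
-/

set_option autoImplicit false

open Finset

namespace Pool.Agent.Helper61.Steinitz

/-- The order in which elements are taken from `m + 1` clusters of sizes `n i`. -/
theorem path {ι : Type*} [DecidableEq ι] (F : Finset ι) (m : ℕ) (hm3 : 3 ≤ m)
    (hF : F.card = m + 1) (θ : ℝ) (hθ : 0 < θ) (hθm : m * θ ≤ 1) (n : ι → ℕ)
    (hn : ∀ i ∈ F, 1 ≤ n i) (Q : (ι → ℕ) → Prop) (hbase : ∀ x, (∀ i ∈ F, x i = 0) → Q x)
    (hstep : ∀ x : ι → ℕ, (∀ i ∈ F, x i ≤ n i) →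
      (∃ s : ℝ, 0 ≤ s ∧ s ≤ 1 / θ ∧ ∑ i ∈ F, |(x i : ℝ) - s * ((n i : ℝ) - 1 + θ)| ≤ m - 1) →
      ∀ i ∈ F, 1 ≤ x i → Q (Function.update x i (x i - 1)) → Q x) :
    ∃ j ∈ F, Q (Function.update n j (n j - 1)) := by
  have hmR : (3 : ℝ) ≤ m := by exact_mod_cast hm3
  have hθ3 : θ ≤ 1 / 3 := by
    rw [le_div_iff₀ (by norm_num)]
    nlinarith
  have hθ1 : 1 ≤ 1 / θ := by
    rw [le_div_iff₀ hθ]; linarith
  have hρ : ∀ i ∈ F, θ ≤ (n i : ℝ) - 1 + θ := by
    intro i hi
    have : (1 : ℝ) ≤ n i := by exact_mod_cast hn i hi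
    linarith
  have hρpos : ∀ i ∈ F, 0 < (n i : ℝ) - 1 + θ := fun i hi => lt_of_lt_of_le hθ (hρ i hi)
  -- phase 3
  have claim3 : ∀ (M : ℕ) (x : ι → ℕ), ∑ i ∈ F, x i = M → (∀ i ∈ F, x i ≤ n i) →
      (∃ s : ℝ, 0 ≤ s ∧ s ≤ 1 ∧ ∀ i ∈ F, |(x i : ℝ) - s * ((n i : ℝ) - 1 + θ)| ≤ 1 / 2) →
      Q x := by
    intro M
    induction M with
    | zero =>
      intro x hx _ _
      exact hbase x (fun i hi => by
        rw [Finset.sum_eq_zero_iff] at hx
        exact hx i hi)
    | succ M ih =>
      intro x hx hxn ⟨s, hs0, hs1, hs⟩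
      let X := F.filter fun i => 1 ≤ x i
      have hX : X.Nonempty := by
        by_contra hcon
        rw [not_nonempty_iff_eq_empty] at hcon
        have : ∑ i ∈ F, x i = 0 := by
          apply Finset.sum_eq_zero
          intro i hi
          by_contra h
          have : i ∈ X := by
            simp only [X, mem_filter]
            exact ⟨hi, by omega⟩
          rw [hcon] at this
          simp at this
        omega
      obtain ⟨i, hi, hmax⟩ := exists_max_image X
        (fun i => ((x i : ℝ) - 1 / 2) / ((n i : ℝ) - 1 + θ)) hX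
      have hiX : i ∈ F ∧ 1 ≤ x i := by simpa [X] using hi
      obtain ⟨hiF, hi1⟩ := hiX
      have hi1R : (1 : ℝ) ≤ x i := by exact_mod_cast hi1
      have hpi := hρpos i hiF
      set s' := ((x i : ℝ) - 1 / 2) / ((n i : ℝ) - 1 + θ) with hs'
      have hs'0 : 0 ≤ s' := by
        apply div_nonneg _ hpi.le
        linarith
      have hs'e : s' * ((n i : ℝ) - 1 + θ) = (x i : ℝ) - 1 / 2 := by
        rw [hs', div_mul_cancel₀ _ hpi.ne']
      have hs's : s' ≤ s := by
        rw [hs', div_le_iff₀ hpi]
        have := (abs_le.mp (hs i hiF)).2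
        linarith
      have hx'i : Function.update x i (x i - 1) i = x i - 1 := Function.update_self _ _ _
      have hx'k : ∀ k, k ≠ i → Function.update x i (x i - 1) k = x k :=
        fun k hk => Function.update_of_ne hk _ _
      refine hstep x hxn ⟨s, hs0, hs1.trans hθ1, ?_⟩ i hiF hi1 ?_
      · calc ∑ i ∈ F, |(x i : ℝ) - s * ((n i : ℝ) - 1 + θ)| ≤ ∑ i ∈ F, (1 / 2 : ℝ) :=
              sum_le_sum hs
          _ ≤ m - 1 := by
              rw [sum_const, nsmul_eq_mul, hF]
              push_cast
              linarith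
      · apply ih
        · have h1 := add_sum_erase F x hiF
          have h2 := add_sum_erase F (Function.update x i (x i - 1)) hiF
          have h3 : ∑ k ∈ F.erase i, Function.update x i (x i - 1) k = ∑ k ∈ F.erase i, x k := by
            apply sum_congr rfl
            intro k hk
            exact hx'k k (ne_of_mem_erase hk)
          rw [h3, hx'i] at h2
          omega
        · intro k hk
          by_cases hki : k = i
          · subst hki
            rw [hx'i]
            have := hxn k hk
            omega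
          · rw [hx'k k hki]; exact hxn k hk
        · refine ⟨s', hs'0, hs's.trans hs1, ?_⟩
          intro k hk
          by_cases hki : k = i
          · subst hki
            rw [hx'i, hs'e, Nat.cast_sub hi1]
            push_cast
            have : (x k : ℝ) - 1 - (x k - 1 / 2) = -(1 / 2) := by ring
            rw [this, abs_neg, abs_of_pos (by norm_num)]
          · rw [hx'k k hki]
            have hpk := hρpos k hk
            have h1 : s' * ((n k : ℝ) - 1 + θ) ≤ s * ((n k : ℝ) - 1 + θ) :=
              mul_le_mul_of_nonneg_right hs's hpk.le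
            have h2 := (abs_le.mp (hs k hk)).1
            rw [abs_le]
            refine ⟨by linarith, ?_⟩
            by_cases hk1 : 1 ≤ x k
            · have h3 := hmax k (by simp only [X, mem_filter]; exact ⟨hk, hk1⟩)
              rw [div_le_iff₀ hpk] at h3
              linarith
            · have h4 : x k = 0 := by omega
              rw [h4]
              have : 0 ≤ s' * ((n k : ℝ) - 1 + θ) := mul_nonneg hs'0 hpk.le
              push_cast
              linarith
  -- phase 2
  let xG : Finset ι → ι → ℕ := fun G i => if i ∈ G then n i - 1 else n i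
  have hxGle : ∀ G, ∀ i ∈ F, xG G i ≤ n i := by
    intro G i _
    simp only [xG]
    split_ifs <;> omega
  have claim2 : ∀ (c : ℕ) (G : Finset ι), G ⊆ F → (F \ G).card = c → 2 ≤ G.card → Q (xG G) := by
    intro c
    induction c with
    | zero =>
      intro G hG hc _
      have hGF : G = F := by
        rw [card_eq_zero, sdiff_eq_empty_iff_subset] at hc
        exact Subset.antisymm hG hc
      subst hGF
      apply claim3 _ _ rfl (hxGle _)
      refine ⟨1, zero_le_one, le_rfl, ?_⟩
      intro i hi
      simp only [xG, if_pos hi]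
      rw [Nat.cast_sub (hn i hi)]
      push_cast
      have : (n i : ℝ) - 1 - 1 * ((n i : ℝ) - 1 + θ) = -θ := by ring
      rw [this, abs_neg, abs_of_pos hθ]
      linarith
    | succ c ih =>
      intro G hG hc h2
      have hne : (F \ G).Nonempty := card_pos.mp (by omega)
      obtain ⟨i, hi⟩ := hne
      rw [mem_sdiff] at hi
      obtain ⟨hiF, hiG⟩ := hi
      refine hstep (xG G) (hxGle G) ⟨1, zero_le_one, hθ1, ?_⟩ i hiF ?_ ?_
      · have e1 : ∀ k ∈ F, |(xG G k : ℝ) - 1 * ((n k : ℝ) - 1 + θ)| =
            (1 - θ) - (if k ∈ G then 1 - 2 * θ else 0) := by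
          intro k hk
          by_cases hkG : k ∈ G
          · simp only [xG, if_pos hkG]
            rw [Nat.cast_sub (hn k hk)]
            push_cast
            have : (n k : ℝ) - 1 - 1 * ((n k : ℝ) - 1 + θ) = -θ := by ring
            rw [this, abs_neg, abs_of_pos hθ]
            ring
          · simp only [xG, if_neg hkG]
            have : (n k : ℝ) - 1 * ((n k : ℝ) - 1 + θ) = 1 - θ := by ring
            rw [this, abs_of_pos (by linarith)]
            ring
        rw [sum_congr rfl e1, sum_sub_distrib, ← sum_filter]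
        have e2 : (F.filter fun k => k ∈ G) = G := by
          ext k
          simp only [mem_filter]
          exact ⟨fun h => h.2, fun h => ⟨hG h, h⟩⟩
        rw [e2, sum_const, sum_const, nsmul_eq_mul, nsmul_eq_mul, hF]
        push_cast
        have h3 : (2 : ℝ) ≤ G.card := by exact_mod_cast h2
        have h4 : 2 * (1 - 2 * θ) ≤ (G.card : ℝ) * (1 - 2 * θ) :=
          mul_le_mul_of_nonneg_right h3 (by linarith)
        have h5 : 3 * θ ≤ m * θ := mul_le_mul_of_nonneg_right hmR hθ.le
        nlinarith
      · simp only [xG, if_neg hiG]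
        exact hn i hiF
      · have e1 : Function.update (xG G) i (xG G i - 1) = xG (insert i G) := by
          funext k
          by_cases hki : k = i
          · subst hki
            rw [Function.update_self]
            simp only [xG, if_neg hiG, mem_insert_self, if_true]
          · rw [Function.update_of_ne hki]
            simp only [xG, mem_insert, hki, false_or]
        rw [e1]
        apply ih
        · rw [insert_subset_iff]; exact ⟨hiF, hG⟩
        · have : F \ insert i G = (F \ G).erase i := by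
            ext k
            simp only [mem_sdiff, mem_insert, mem_erase, not_or]
            tauto
          rw [this, card_erase_of_mem (mem_sdiff.mpr ⟨hiF, hiG⟩), hc]
          rfl
        · rw [card_insert_of_notMem hiG]; omega
  -- phase 1
  have hFne : F.Nonempty := card_pos.mp (by omega)
  obtain ⟨i1, hi1, hmax⟩ := exists_max_image F (fun i => (n i : ℝ) - 1 + θ) hFne
  have hE1 : (F.erase i1).Nonempty := card_pos.mp (by rw [card_erase_of_mem hi1]; omega)
  obtain ⟨j0, hj0, hmin⟩ := exists_min_image (F.erase i1) (fun i => (n i : ℝ) - 1 + θ) hE1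
  have hj0F : j0 ∈ F := mem_of_mem_erase hj0
  have hj0i1 : j0 ≠ i1 := ne_of_mem_erase hj0
  have hE2 : ((F.erase i1).erase j0).Nonempty := card_pos.mp (by
    rw [card_erase_of_mem hj0, card_erase_of_mem hi1]; omega)
  obtain ⟨k0, hk0⟩ := hE2
  have hk0E : k0 ∈ F.erase i1 := mem_of_mem_erase hk0
  have hk0F : k0 ∈ F := mem_of_mem_erase hk0E
  have hk0j0 : k0 ≠ j0 := ne_of_mem_erase hk0
  have hk0i1 : k0 ≠ i1 := ne_of_mem_erase hk0E
  refine ⟨j0, hj0F, ?_⟩
  have hp1 := hρpos i1 hi1
  set u := (1 - θ) / ((n i1 : ℝ) - 1 + θ) with hu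
  have hu0 : 0 ≤ u := by
    apply div_nonneg _ hp1.le
    linarith
  have hue : u * ((n i1 : ℝ) - 1 + θ) = 1 - θ := by rw [hu, div_mul_cancel₀ _ hp1.ne']
  have hule : u ≤ (1 - θ) / θ := by
    rw [hu]
    apply div_le_div_of_nonneg_left (by linarith) hθ (hρ i1 hi1)
  have hx'j : Function.update n j0 (n j0 - 1) j0 = n j0 - 1 := Function.update_self _ _ _
  have hx'k : ∀ k, k ≠ j0 → Function.update n j0 (n j0 - 1) k = n k :=
    fun k hk => Function.update_of_ne hk _ _
  refine hstep _ ?_ ⟨1 + u, by linarith, ?_, ?_⟩ k0 hk0F ?_ ?_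
  · intro k _
    by_cases hk : k = j0
    · subst hk
      rw [hx'j]; omega
    · rw [hx'k k hk]
  · have : 1 / θ = 1 + (1 - θ) / θ := by field_simp; ring
    rw [this]; linarith
  · rw [← add_sum_erase F _ hj0F, hx'j, Nat.cast_sub (hn j0 hj0F)]
    push_cast
    have e1 : (n j0 : ℝ) - 1 - (1 + u) * ((n j0 : ℝ) - 1 + θ) =
        -(θ + u * ((n j0 : ℝ) - 1 + θ)) := by ring
    rw [e1, abs_neg, abs_of_nonneg (by
      have := mul_nonneg hu0 (hρpos j0 hj0F).le
      linarith)]
    have e2 : ∀ k ∈ F.erase j0, |((Function.update n j0 (n j0 - 1) k : ℕ) : ℝ) -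
        (1 + u) * ((n k : ℝ) - 1 + θ)| = (1 - θ) - u * ((n k : ℝ) - 1 + θ) := by
      intro k hk
      rw [hx'k k (ne_of_mem_erase hk)]
      have e3 : (n k : ℝ) - (1 + u) * ((n k : ℝ) - 1 + θ) =
        (1 - θ) - u * ((n k : ℝ) - 1 + θ) := by ring
      rw [e3, abs_of_nonneg]
      have h1 := mul_le_mul_of_nonneg_left (hmax k (mem_of_mem_erase hk)) hu0
      rw [hue] at h1
      linarith
    rw [sum_congr rfl e2, sum_sub_distrib, sum_const, nsmul_eq_mul, card_erase_of_mem hj0F, hF,
      ← mul_sum]
    have hcast : ((m + 1 - 1 : ℕ) : ℝ) = m := by simp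
    rw [hcast]
    -- lower bound for the sum
    have hi1E : i1 ∈ F.erase j0 := mem_erase.mpr ⟨Ne.symm hj0i1, hi1⟩
    have hk0E' : k0 ∈ (F.erase j0).erase i1 :=
      mem_erase.mpr ⟨hk0i1, mem_erase.mpr ⟨hk0j0, hk0F⟩⟩
    have hlow : ((n i1 : ℝ) - 1 + θ) + ((n j0 : ℝ) - 1 + θ) ≤
        ∑ k ∈ F.erase j0, ((n k : ℝ) - 1 + θ) := by
      rw [← add_sum_erase (F.erase j0) _ hi1E, ← add_sum_erase _ _ hk0E']
      have h1 := hmin k0 hk0E
      have h2 : 0 ≤ ∑ k ∈ ((F.erase j0).erase i1).erase k0, ((n k : ℝ) - 1 + θ) := by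
        apply sum_nonneg
        intro k hk
        exact (hρpos k (mem_of_mem_erase (mem_of_mem_erase (mem_of_mem_erase hk)))).le
      linarith
    have h1 := mul_le_mul_of_nonneg_left hlow hu0
    rw [mul_add, hue] at h1
    have h5 : 3 * θ ≤ m * θ := mul_le_mul_of_nonneg_right hmR hθ.le
    nlinarith
  · rw [hx'k k0 hk0j0]; exact hn k0 hk0F
  · have e1 : Function.update (Function.update n j0 (n j0 - 1)) k0
        (Function.update n j0 (n j0 - 1) k0 - 1) = xG {j0, k0} := by
      funext k
      by_cases hk : k = k0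
      · subst hk
        rw [Function.update_self, hx'k k hk0j0]
        simp [xG]
      · rw [Function.update_of_ne hk]
        by_cases hk2 : k = j0
        · subst hk2
          rw [hx'j]
          simp [xG]
        · rw [hx'k k hk2]
          simp [xG, hk, hk2]
    rw [e1]
    apply claim2 _ _ _ rfl
    · rw [card_pair (Ne.symm hk0j0)]
    · intro k hk
      rw [mem_insert, mem_singleton] at hk
      rcases hk with rfl | rfl
      · exact hj0F
      · exact hk0F

end Pool.Agent.Helper61.Steinitz
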