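import Pool.Agent.Helper61.SteinitzC
import Pool.Agent.Helper61.SteinitzD

/-!
# Stuck states can be finished directly, and the main induction
-/

set_option autoImplicit false

open Finset

namespace Pool.Agent.Helper61.Steinitz

variable {ι V : Type*} [DecidableEq ι] [AddCommGroup V] [Module ℝ V] [FiniteDimensional ℝ V]

/-- If all the vectors are clustered around the vectors of a critical basis, then they can be
removed one after another. -/
theorem finish {N : V → ℝ} (hN : IsN N) (m : ℕ) (hm : Module.finrank ℝ V = m) (hm3 : 3 ≤ m)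
    {v : ι → V} {θ : ℝ} (hθ : 0 < θ) (hθ1 : θ < 1) (hθm : m * θ ≤ 1) {A F : Finset ι}
    {r : ι → ℝ} (hv : ∀ i ∈ A, N (v i) ≤ 1) (hFA : F ⊆ A) (hFcard : F.card = m + 1)
    (hr : Critical v θ A F r) (g : ι → ι) (hgF : ∀ j ∈ A, g j ∈ F) (hgi : ∀ i ∈ F, g i = i)
    (κ : ℝ) (hκ : 0 ≤ κ) (hg : ∀ j ∈ A, N (v j - v (g j)) ≤ κ)
    (hη : 2 * m * (m + 1) * κ + 1 / θ * ((1 - θ) * (m + 1) * κ + (1 - m * θ)) ≤ θ) :
    ∃ j ∈ A, Fins N (m - 1 + θ) v (A.erase j) := by
  let C : ι → Finset ι := fun i => A.filter fun j => g j = i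
  have hiC : ∀ i ∈ F, i ∈ C i := fun i hi => mem_filter.mpr ⟨hFA hi, hgi i hi⟩
  let n : ι → ℕ := fun i => (C i).card
  have hn1 : ∀ i ∈ F, 1 ≤ n i := fun i hi => card_pos.mpr ⟨i, hiC i hi⟩
  have hnpos : ∀ i ∈ F, (0 : ℝ) < n i := fun i hi => by exact_mod_cast hn1 i hi
  let a : ι → V := fun i => (1 / (n i : ℝ)) • ∑ j ∈ C i, v j
  have hna : ∀ i ∈ F, (n i : ℝ) • a i = ∑ j ∈ C i, v j := by
    intro i hi
    simp only [a]
    rw [smul_smul, mul_one_div_cancel (hnpos i hi).ne', one_smul]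
  have hmean : ∀ i ∈ F, ∀ w : V, ∀ M : ℝ, (∀ j ∈ C i, N (w - v j) ≤ M) → N (w - a i) ≤ M := by
    intro i hi w M hM
    have hpos := hnpos i hi
    have e1 : (n i : ℝ) • (w - a i) = ∑ j ∈ C i, (w - v j) := by
      rw [smul_sub, hna i hi, sum_sub_distrib, sum_const, ← Nat.cast_smul_eq_nsmul ℝ]
    have h1 : (n i : ℝ) * N (w - a i) ≤ n i * M := by
      calc (n i : ℝ) * N (w - a i) = N ((n i : ℝ) • (w - a i)) := by
            rw [hN.smul_eq, abs_of_pos hpos]
        _ = N (∑ j ∈ C i, (w - v j)) := by rw [e1]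
        _ ≤ ∑ j ∈ C i, N (w - v j) := hN.sum_le _ _
        _ ≤ ∑ j ∈ C i, M := sum_le_sum hM
        _ = n i * M := by rw [sum_const, nsmul_eq_mul]
    exact le_of_mul_le_mul_left h1 hpos
  have hsymm : ∀ x y : V, N (x - y) = N (y - x) := fun x y => by
    rw [← hN.neg (x - y), neg_sub]
  have hCv : ∀ i ∈ F, ∀ j ∈ C i, N (v i - v j) ≤ κ := by
    intro i _ j hj
    obtain ⟨hjA, hji⟩ := mem_filter.mp hj
    have := hg j hjA
    rw [hji] at this
    rwa [hsymm]
  have ha1 : ∀ i ∈ F, N (a i) ≤ 1 := by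
    intro i hi
    have := hmean i hi 0 1 (fun j hj => by
      rw [zero_sub, hN.neg]; exact hv j (mem_filter.mp hj).1)
    rwa [zero_sub, hN.neg] at this
  have hav : ∀ i ∈ F, N (v i - a i) ≤ κ := fun i hi => hmean i hi (v i) κ (hCv i hi)
  have hau : ∀ i ∈ F, ∀ j ∈ C i, N (v j - a i) ≤ 2 * κ := by
    intro i hi j hj
    have e : v j - a i = (v i - a i) - (v i - v j) := by abel
    rw [e]
    have := hN.sub_le (v i - a i) (v i - v j)
    linarith [hav i hi, hCv i hi j hj]
  have hstz : ∀ i ∈ F, Fins N (m * (2 * κ)) (fun j => v j - a i) (C i) := by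
    intro i hi
    refine steinitz hN m hm (2 * κ) (by positivity) _ (C i) (hau i hi) (fun _ => 1)
      (fun _ _ => ⟨zero_le_one, le_rfl⟩) ?_ ?_
    · simp only [one_smul, sum_sub_distrib, sum_const]
      rw [← Nat.cast_smul_eq_nsmul ℝ]
      exact sub_eq_zero.mpr (hna i hi).symm
    · simp
  choose! B hB0 hB1 hB2 hB3 hB4 hB5 using fun i hi =>
    (hstz i hi).chain hN (by positivity : (0 : ℝ) ≤ m * (2 * κ))
  let P : (ι → ℕ) → Finset ι := fun x => F.biUnion fun i => B i (x i)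
  have hdisj : ∀ x : ι → ℕ, (∀ i ∈ F, x i ≤ n i) →
      (F : Set ι).PairwiseDisjoint (fun i => B i (x i)) := by
    intro x hx i hi k hk hik
    simp only [Function.onFun]
    rw [Finset.disjoint_left]
    intro j hj1 hj2
    have h1 := mem_filter.mp (hB3 i hi (x i) (hx i hi) hj1)
    have h2 := mem_filter.mp (hB3 k hk (x k) (hx k hk) hj2)
    exact hik (h1.2.symm.trans h2.2)
  have hsumP : ∀ x : ι → ℕ, (∀ i ∈ F, x i ≤ n i) →
      ∑ j ∈ P x, v j = ∑ i ∈ F, (∑ j ∈ B i (x i), (v j - a i)) + ∑ i ∈ F, (x i : ℝ) • a i := by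
    intro x hx
    simp only [P]
    rw [sum_biUnion (hdisj x hx), ← sum_add_distrib]
    apply sum_congr rfl
    intro i hi
    rw [sum_sub_distrib, sum_const, hB4 i hi (x i) (hx i hi), ← Nat.cast_smul_eq_nsmul ℝ]
    abel
  have he0 : N (∑ i ∈ F, ((n i : ℝ) - 1 + θ) • a i) ≤
      (1 - θ) * (m + 1) * κ + (1 - m * θ) := by
    have e1 : ∑ i ∈ F, (n i : ℝ) • a i = ∑ j ∈ A, v j := by
      rw [sum_congr rfl hna]
      exact sum_fiberwise_of_maps_to hgF _
    have e2 : ∑ j ∈ A, v j = ∑ i ∈ F, (1 - r i) • v i := by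
      have h1 : ∑ j ∈ A, (1 - r j) • v j = ∑ i ∈ F, (1 - r i) • v i := by
        symm
        apply sum_subset hFA
        intro i hi hif
        rw [hr.one i hi hif]
        simp
      rw [← h1]
      simp only [sub_smul, one_smul, sum_sub_distrib, hr.rel, sub_zero]
    have e3 : ∑ i ∈ F, ((n i : ℝ) - 1 + θ) • a i =
        ∑ i ∈ F, (θ - r i) • v i + ∑ i ∈ F, (1 - θ) • (v i - a i) := by
      have h1 : ∀ i ∈ F, ((n i : ℝ) - 1 + θ) • a i = (n i : ℝ) • a i - (1 - θ) • a i := by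
        intro i _
        module
      rw [sum_congr rfl h1, sum_sub_distrib, e1, e2, ← sum_sub_distrib, ← sum_add_distrib]
      apply sum_congr rfl
      intro i _
      module
    rw [e3]
    refine (hN.add_le _ _).trans ?_
    have h1 := hN.sum_smul_le F (fun i => θ - r i) v 1 (fun i hi => hv i (hFA hi))
    have h2 := hN.sum_smul_le F (fun _ => 1 - θ) (fun i => v i - a i) κ hav
    have h3 : ∑ i ∈ F, |θ - r i| = 1 - m * θ := by
      have : ∀ i ∈ F, |θ - r i| = r i - θ := by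
        intro i hi
        rw [abs_of_neg (by linarith [hr.gt i hi])]
        ring
      rw [sum_congr rfl this, sum_sub_distrib, hr.sum, sum_const, nsmul_eq_mul, hFcard]
      push_cast
      ring
    have h4 : ∑ _i ∈ F, |1 - θ| = (m + 1) * (1 - θ) := by
      rw [abs_of_pos (by linarith), sum_const, nsmul_eq_mul, hFcard]
      push_cast
      ring
    rw [h3] at h1
    rw [h4] at h2
    linarith
  have hnormP : ∀ x : ι → ℕ, (∀ i ∈ F, x i ≤ n i) →
      (∃ s : ℝ, 0 ≤ s ∧ s ≤ 1 / θ ∧ ∑ i ∈ F, |(x i : ℝ) - s * ((n i : ℝ) - 1 + θ)| ≤ m - 1) →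
      N (∑ j ∈ P x, v j) ≤ m - 1 + θ := by
    rintro x hx ⟨s, hs0, hs1, hs⟩
    rw [hsumP x hx]
    have e1 : ∑ i ∈ F, (x i : ℝ) • a i =
        ∑ i ∈ F, ((x i : ℝ) - s * ((n i : ℝ) - 1 + θ)) • a i +
          s • ∑ i ∈ F, ((n i : ℝ) - 1 + θ) • a i := by
      rw [smul_sum, ← sum_add_distrib]
      apply sum_congr rfl
      intro i _
      module
    rw [e1]
    refine (hN.add_le _ _).trans ?_
    have h1 : N (∑ i ∈ F, (∑ j ∈ B i (x i), (v j - a i))) ≤ 2 * m * (m + 1) * κ := by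
      refine (hN.sum_le _ _).trans ?_
      refine (sum_le_sum (fun i hi => hB5 i hi (x i) (hx i hi))).trans ?_
      rw [sum_const, nsmul_eq_mul, hFcard]
      push_cast
      apply le_of_eq
      ring
    have h2 : N (∑ i ∈ F, ((x i : ℝ) - s * ((n i : ℝ) - 1 + θ)) • a i) ≤ m - 1 := by
      have := hN.sum_smul_le F (fun i => (x i : ℝ) - s * ((n i : ℝ) - 1 + θ)) a 1 ha1
      linarith
    have h3 : N (s • ∑ i ∈ F, ((n i : ℝ) - 1 + θ) • a i) ≤
        1 / θ * ((1 - θ) * (m + 1) * κ + (1 - m * θ)) := by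
      rw [hN.smul_eq, abs_of_nonneg hs0]
      apply mul_le_mul hs1 he0 (hN.nonneg _) (by positivity)
    have h4 := hN.add_le (∑ i ∈ F, ((x i : ℝ) - s * ((n i : ℝ) - 1 + θ)) • a i)
      (s • ∑ i ∈ F, ((n i : ℝ) - 1 + θ) • a i)
    linarith
  have hPs : ∀ x : ι → ℕ, (∀ i ∈ F, x i ≤ n i) → ∀ i ∈ F, 1 ≤ x i →
      ∃ j ∈ P x, P (Function.update x i (x i - 1)) = (P x).erase j := by
    intro x hx i hi hxi
    have hxn := hx i hi
    obtain ⟨j, hj, hj2, hj3⟩ := hB2 i hi (x i - 1) (by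
      show x i - 1 < n i
      omega)
    rw [Nat.sub_add_cancel hxi] at hj3
    have hjP : j ∈ P x := mem_biUnion.mpr ⟨i, hi, by rw [hj3]; exact mem_insert_self _ _⟩
    refine ⟨j, hjP, ?_⟩
    ext k
    simp only [P, mem_biUnion, mem_erase]
    constructor
    · rintro ⟨i', hi', hk⟩
      by_cases h : i' = i
      · subst h
        rw [Function.update_self] at hk
        refine ⟨fun hkj => hj2 (hkj ▸ hk), i', hi', ?_⟩
        rw [hj3]
        exact mem_insert_of_mem hk
      · rw [Function.update_of_ne h] at hk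
        refine ⟨fun hkj => ?_, i', hi', hk⟩
        subst hkj
        have h1 := (mem_filter.mp (hB3 i' hi' (x i') (hx i' hi') hk)).2
        have h2 := (mem_filter.mp hj).2
        exact h (h1.symm.trans h2)
    · rintro ⟨hkj, i', hi', hk⟩
      refine ⟨i', hi', ?_⟩
      by_cases h : i' = i
      · subst h
        rw [Function.update_self]
        rw [hj3, mem_insert] at hk
        exact hk.resolve_left hkj
      · rw [Function.update_of_ne h]
        exact hk
  have hPn : P n = A := by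
    ext k
    simp only [P, mem_biUnion]
    constructor
    · rintro ⟨i, hi, hk⟩
      rw [hB1 i hi] at hk
      exact (mem_filter.mp hk).1
    · intro hk
      refine ⟨g k, hgF k hk, ?_⟩
      rw [hB1 (g k) (hgF k hk)]
      exact mem_filter.mpr ⟨hk, rfl⟩
  obtain ⟨j, hj, hQ⟩ := path F m hm3 hFcard θ hθ hθm n hn1
    (fun x => Fins N (m - 1 + θ) v (P x)) (by
      intro x hx
      have : P x = ∅ := by
        rw [Finset.eq_empty_iff_forall_notMem]
        intro k hk
        obtain ⟨i, hi, hk⟩ := mem_biUnion.mp hk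
        rw [hx i hi, hB0 i hi] at hk
        simp at hk
      show Fins N (m - 1 + θ) v (P x)
      rw [this]
      exact Fins.empty) (by
      intro x hx hs i hi hxi hQ
      obtain ⟨j, hj, he⟩ := hPs x hx i hi hxi
      simp only [he] at hQ
      exact Fins.step (P x) j hj (hnormP x hx hs) hQ)
  obtain ⟨j', hj', he⟩ := hPs n (fun _ _ => le_rfl) j hj (hn1 j hj)
  simp only [he, hPn] at hQ
  rw [hPn] at hj'
  exact ⟨j', hj', hQ⟩

/-- The main induction. -/
theorem fins_of_state {N : V → ℝ} (hN : IsN N) (m : ℕ) (hm : Module.finrank ℝ V = m)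
    (hm3 : 3 ≤ m) {v : ι → V} {θ : ℝ} (hθ : 0 < θ) (hθ1 : θ < 1) (hθm : m * θ ≤ 1) (κ : ℝ)
    (hκ : (1 - θ) * κ = 2 * (1 - m * θ))
    (hη : 2 * m * (m + 1) * κ + 1 / θ * ((1 - θ) * (m + 1) * κ + (1 - m * θ)) ≤ θ)
    (A : Finset ι) (hv : ∀ i ∈ A, N (v i) ≤ 1) (hst : State N v θ (m - 1 + θ) A) :
    Fins N (m - 1 + θ) v A := by
  induction hn : A.card using Nat.strong_induction_on generalizing A with
  | _ n ih =>
    rcases A.eq_empty_or_nonempty with rfl | hne
    · exact Fins.empty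
    by_cases hstuck : ∃ z ∈ A, State N v θ (m - 1 + θ) (A.erase z)
    · obtain ⟨z, hz, hs⟩ := hstuck
      refine Fins.step A z hz (hst.norm_le hN hv)
        (ih _ ?_ _ (fun i hi => hv i (mem_of_mem_erase hi)) hs rfl)
      rw [← hn]
      exact card_erase_lt_of_mem hz
    · push Not at hstuck
      have hκ0 : 0 ≤ κ := by
        by_contra hcon
        push Not at hcon
        have : (1 - θ) * κ < 0 := mul_neg_of_pos_of_neg (by linarith) hcon
        linarith
      obtain ⟨F, r0, hV, haff⟩ := exists_vertex hN m hm hθ hθ1 hst hstuck hne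
      obtain ⟨r, hr⟩ := critical_of_vertex hN m (by omega) hθ hv hV hstuck
      have hclose : ∀ j, ∃ i, j ∈ A → i ∈ F ∧ N (v j - v i) ≤ κ ∧ (j ∈ F → i = j) := by
        intro j
        by_cases hjF : j ∈ F
        · exact ⟨j, fun _ => ⟨hjF, by rw [sub_self, hN.zero]; exact hκ0, fun _ => rfl⟩⟩
        · by_cases hj : j ∈ A
          · obtain ⟨i, hi, h⟩ := exists_close hN m (by omega) hθ hθ1 hv hV hstuck hj hjF (haff j)
            refine ⟨i, fun _ => ⟨hi, ?_, fun h => absurd h hjF⟩⟩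
            rw [← hκ] at h
            exact le_of_mul_le_mul_left h (by linarith)
          · exact ⟨j, fun h => absurd h hj⟩
      choose g hg using hclose
      obtain ⟨j, hj, hF⟩ := finish hN m hm hm3 hθ hθ1 hθm hv hV.sub hV.card hr g
        (fun j hj => (hg j hj).1) (fun i hi => (hg i (hV.sub hi)).2.2 hi) κ hκ0
        (fun j hj => (hg j hj).2.1) hη
      exact Fins.step A j hj (hst.norm_le hN hv) hF

end Pool.Agent.Helper61.Steinitz
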