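import Pool.Agent.Helper61.SteinitzE

/-!
# The Steinitz constant in dimension three is at most `2.333`
-/

set_option autoImplicit false

open Finset

namespace Pool.Agent.Helper61.Steinitz

/-- In dimension three every zero-sum family in the unit ball can be removed with all the sums
bounded by `2.333`. -/
theorem fins_three {ι V : Type*} [DecidableEq ι] [AddCommGroup V] [Module ℝ V]
    [FiniteDimensional ℝ V] {N : V → ℝ} (hN : IsN N) (hm : Module.finrank ℝ V = 3)
    (v : ι → V) (A : Finset ι) (hv : ∀ i ∈ A, N (v i) ≤ 1) (h0 : ∑ i ∈ A, v i = 0) :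
    Fins N (2333 / 1000) v A := by
  have h := fins_of_state hN 3 hm le_rfl (v := v) (θ := 333 / 1000) (by norm_num) (by norm_num)
    (by norm_num) (2 / 667) (by norm_num) (by norm_num) A hv ?_
  · have e : ((3 : ℕ) : ℝ) - 1 + 333 / 1000 = 2333 / 1000 := by norm_num
    rwa [e] at h
  · refine ⟨fun _ => 1, 0, 0, fun _ _ => ⟨zero_le_one, le_rfl⟩, by rw [hN.zero], le_rfl,
      by norm_num, ?_, ?_⟩
    · simpa using h0
    · simp only [sub_self, sum_const_zero, add_zero]
      norm_num

/-- From removals to permutations. -/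
theorem perm_of_fins {V : Type*} [AddCommGroup V] [Module ℝ V] {N : V → ℝ}
    (hN : IsN N) {T : ℝ} (hT : 0 ≤ T) (n : ℕ) (v : Fin n → V) (h0 : ∑ j, v j = 0)
    (h : Fins N T v Finset.univ) :
    ∃ σ : Equiv.Perm (Fin n), ∀ k : ℕ, k ≤ n →
      N (∑ j ∈ Finset.univ.filter (fun j : Fin n => j.val < k), v (σ j)) ≤ T := by
  obtain ⟨l, hnd, hl, hs⟩ := h.list
  have hmem : ∀ x : Fin n, x ∈ l := by
    intro x
    rw [← List.mem_toFinset, hl]
    exact mem_univ x
  have hlen : l.length = n := by
    have h1 := List.toFinset_card_of_nodup hnd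
    rw [hl, card_univ, Fintype.card_fin] at h1
    exact h1.symm
  let e : Fin l.length ≃ Fin n := hnd.getEquivOfForallMemList l hmem
  let σ : Equiv.Perm (Fin n) := (finCongr hlen.symm).trans e
  have hσ : ∀ j : Fin n, σ j = l[j.val]'(by rw [hlen]; exact j.2) := fun j => rfl
  refine ⟨σ, ?_⟩
  intro k hk
  have htot : ∑ j, v (σ j) = 0 := by
    rw [← h0]
    exact Equiv.sum_comp σ v
  have hsplit : ∑ j ∈ Finset.univ.filter (fun j : Fin n => j.val < k), v (σ j) =
      -∑ j ∈ Finset.univ.filter (fun j : Fin n => ¬ j.val < k), v (σ j) := by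
    rw [eq_neg_iff_add_eq_zero, ← htot]
    exact sum_filter_add_sum_filter_not _ _ _
  have hdrop : ∑ j ∈ Finset.univ.filter (fun j : Fin n => ¬ j.val < k), v (σ j) =
      ((l.drop k).map v).sum := by
    have hnd' : (l.drop k).Nodup := hnd.sublist (List.drop_sublist k l)
    rw [← List.sum_toFinset v hnd']
    refine sum_nbij σ ?_ σ.injective.injOn ?_ (fun _ _ => rfl)
    · intro j hj
      rw [mem_filter] at hj
      have hjk : k ≤ j.val := Nat.le_of_not_lt hj.2
      rw [List.mem_toFinset, List.mem_drop_iff_getElem]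
      have hjl : j.val < l.length := by rw [hlen]; exact j.2
      refine ⟨j.val - k, by omega, ?_⟩
      rw [hσ j]
      congr 1
      omega
    · intro x hx
      have hx' : x ∈ l.drop k := by
        rw [mem_coe, List.mem_toFinset] at hx
        exact hx
      rw [List.mem_drop_iff_getElem] at hx'
      obtain ⟨i, hi, hx'⟩ := hx'
      refine ⟨⟨k + i, by omega⟩, ?_, ?_⟩
      · rw [mem_coe, mem_filter]
        exact ⟨mem_univ _, by simp⟩
      · rw [hσ]
        exact hx'
  rw [hsplit, hN.neg, hdrop]
  rcases Nat.lt_or_ge k l.length with h1 | h1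
  · exact hs k h1
  · rw [List.drop_eq_nil_of_le h1]
    simp [hN.zero, hT]

end Pool.Agent.Helper61.Steinitz
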