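import Mathlib

set_option autoImplicit false

open Cardinal Ordinal Set Order

universe u

namespace Pool.Agent.Helper61

/-- The generalized continuum hypothesis (in the universe `u`): `2 ^ c = c⁺` for all infinite `c`. -/
def GCH : Prop := ∀ c : Cardinal.{u}, ℵ₀ ≤ c → (2 : Cardinal.{u}) ^ c = succ c

/-- The degree of disjunction `δ(𝒜)`: the least cardinal `d` such that `|A ∩ B| < d` for all
distinct `A, B ∈ 𝒜`. -/
noncomputable def disjunctionDegree {X : Type u} (𝒜 : Set (Set X)) : Cardinal.{u} :=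
  sInf {d | ∀ A ∈ 𝒜, ∀ B ∈ 𝒜, A ≠ B → #(A ∩ B : Set X) < d}

/-- `T` is a `θ`-transversal of `𝒜`: `T ∩ A ≠ ∅` and `|T ∩ A| < θ` for every `A ∈ 𝒜`. -/
def IsTransversal {X : Type u} (θ : Cardinal.{u}) (𝒜 : Set (Set X)) (T : Set X) : Prop :=
  ∀ A ∈ 𝒜, (T ∩ A).Nonempty ∧ #(T ∩ A : Set X) < θ

/-- Every family `𝒜` of `κ` sets each of power `κ` with `δ(𝒜) ≤ l` has an `l⁺`-transversal. -/
def HasTransversals (κ l : Cardinal.{u}) : Prop :=
  ∀ (X : Type u) (𝒜 : Set (Set X)), #𝒜 = κ → (∀ A ∈ 𝒜, #A = κ) → disjunctionDegree 𝒜 ≤ l →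
    ∃ T : Set X, IsTransversal (succ l) 𝒜 T

/-- There are a stationary set `S ⊆ κ` and sets `C δ ⊆ δ` (`δ ∈ S`) of size `l⁺`, any two of which
meet in fewer than `l` points. (Here `κ` is identified with the well-order `κ.ord.ToType`, and
`δ ∈ κ` with its set `Iio δ` of predecessors.) -/
def StationaryAlmostDisjoint (κ l : Cardinal.{u}) : Prop :=
  ∃ (S : Set κ.ord.ToType) (C : κ.ord.ToType → Set κ.ord.ToType), IsStationary S ∧
    (∀ δ ∈ S, C δ ⊆ Iio δ ∧ #(C δ) = succ l) ∧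
    ∀ δ ∈ S, ∀ ε ∈ S, δ ≠ ε → #(C δ ∩ C ε : Set κ.ord.ToType) < l

end Pool.Agent.Helper61
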