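import Mathlib
import Pool.Agent.Helper61.TransvDefs

set_option autoImplicit false

open Cardinal Ordinal Set Order

universe u

namespace Pool.Agent.Helper61

lemma mk_Iio_lt' {k : Cardinal.{u}} (x : k.ord.ToType) : #(Iio x) < k := by
  have := Cardinal.mk_Iio_lt x (by simp)
  simpa using this

/-- If all initial segments of a set in a well order have size `< l`, the set has size `≤ l`. -/
lemma mk_le_of_initial {J : Type u} [LinearOrder J] [WellFoundedLT J] (l : Cardinal.{u})
    (h : ∀ a : J, #(Iio a) < l) : #J ≤ l := by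
  by_contra hcon
  push Not at hcon
  have h1 : l.ord < Ordinal.type (α := J) (· < ·) := by
    refine lt_of_lt_of_le (Cardinal.ord_lt_ord.mpr hcon) ?_
    exact Cardinal.ord_le_type _
  have h2 := h (Ordinal.enum (α := J) (· < ·) ⟨l.ord, h1⟩)
  have h3 : (Ordinal.typein (α := J) (· < ·) (Ordinal.enum (α := J) (· < ·) ⟨l.ord, h1⟩)).card = l := by
    rw [Ordinal.typein_enum, Cardinal.card_ord]
  rw [Ordinal.card_typein] at h3
  have h4 : #(Iio (Ordinal.enum (α := J) (· < ·) ⟨l.ord, h1⟩)) = l := h3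
  rw [h4] at h2
  exact lt_irrefl _ h2

/-- type version: all initial segments smaller than `#J` implies the order type is `(#J).ord`. -/
lemma type_eq_of_initial {J : Type u} [LinearOrder J] [WellFoundedLT J] 
    (h : ∀ a : J, #(Iio a) < #J) : Ordinal.type (α := J) (· < ·) = (#J).ord := by
  apply le_antisymm _ (Cardinal.ord_le_type _)
  by_contra hcon
  push Not at hcon
  have h2 := h (Ordinal.enum (α := J) (· < ·) ⟨(#J).ord, hcon⟩)
  have h3 : (Ordinal.typein (α := J) (· < ·)
      (Ordinal.enum (α := J) (· < ·) ⟨(#J).ord, hcon⟩)).card = #J := by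
    rw [Ordinal.typein_enum, Cardinal.card_ord]
  rw [Ordinal.card_typein] at h3
  have h4 : #(Iio (Ordinal.enum (α := J) (· < ·) ⟨(#J).ord, hcon⟩)) = #J := h3
  rw [h4] at h2
  exact lt_irrefl _ h2

/-- Members of an almost disjoint family that meet `T` in at least `l` points: at most
`#T ^ l` many. -/
lemma count_le {X I : Type u} (A : I → Set X) (l : Cardinal.{u})
    (hA : ∀ a b, a ≠ b → #(A a ∩ A b : Set X) < l) (T : Set X) :
    #{b | l ≤ #(T ∩ A b : Set X)} ≤ #T ^ l := by
  classical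
  induction l using Cardinal.inductionOn with
  | _ L =>
    have h : ∀ b : {b | #L ≤ #(T ∩ A b : Set X)}, Nonempty (L ↪ (T ∩ A b.1 : Set X)) := fun b => b.2
    let f : ∀ b : {b | #L ≤ #(T ∩ A b : Set X)}, L ↪ (T ∩ A b.1 : Set X) := fun b => (h b).some
    show #{b | #L ≤ #(T ∩ A b : Set X)} ≤ #(L → T)
    refine Cardinal.mk_le_of_injective (f := fun b x => (⟨(f b x).1, (f b x).2.1⟩ : T)) ?_
    intro b c hbc
    by_contra hne
    have hne' : b.1 ≠ c.1 := fun h => hne (Subtype.ext h)
    have h1 := hA b.1 c.1 hne'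
    have h2 : #L ≤ #(A b.1 ∩ A c.1 : Set X) := by
      refine ⟨⟨fun x => ⟨(f b x).1, (f b x).2.2, ?_⟩, ?_⟩⟩
      · have h3 := congrFun hbc x
        have h4 : (f b x).1 = (f c x).1 := congrArg Subtype.val h3
        rw [h4]
        exact (f c x).2.2
      · intro x y hxy
        apply (f b).injective
        apply Subtype.ext
        have h5 := congrArg Subtype.val hxy
        exact h5
    exact absurd h1 (not_lt.mpr h2)

/-- The step function of the greedy construction. -/
noncomputable def greedyStep {X I : Type u} (A : I → Set X) (l : Cardinal.{u}) (b : I)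
    (P : Set X) : Set X := by
  classical
  exact if (P ∩ A b).Nonempty then ∅
    else if h : (A b \ ⋃ c ∈ {c | c ≠ b ∧ l ≤ #(P ∩ A c : Set X)}, A c).Nonempty
      then {h.some} else ∅

/-- The greedy construction. -/
noncomputable def greedy {X I : Type u} [LinearOrder I] [WellFoundedLT I] (A : I → Set X)
    (l : Cardinal.{u}) : I → Set X :=
  wellFounded_lt.fix (fun b rec => greedyStep A l b (⋃ a, ⋃ h : a < b, rec a h))

lemma greedy_eq {X I : Type u} [LinearOrder I] [WellFoundedLT I] (A : I → Set X)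
    (l : Cardinal.{u}) (b : I) :
    greedy A l b = greedyStep A l b (⋃ a, ⋃ _ : a < b, greedy A l a) := by
  unfold greedy
  rw [WellFounded.fix_eq]

/-- The greedy lemma. -/
lemma greedy_lemma {X I : Type u} [LinearOrder I] [WellFoundedLT I] (A : I → Set X)
    (k l : Cardinal.{u}) (hk : ℵ₀ ≤ k) (hl : 1 ≤ l) (hlk : l < k)
    (hI : ∀ b : I, #(Iio b) < k) (hAk : ∀ b, k ≤ #(A b))
    (hA : ∀ a b, a ≠ b → #(A a ∩ A b : Set X) < l)
    (H : ∀ T : Set X, #T < k → #{b | l ≤ #(T ∩ A b : Set X)} < k) :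
    ∃ T : Set X, T ⊆ (⋃ b, A b) ∧ ∀ b, (T ∩ A b).Nonempty ∧ #(T ∩ A b : Set X) ≤ l := by
  classical
  set t : I → Set X := greedy A l with ht
  set P : I → Set X := fun b => ⋃ a, ⋃ _ : a < b, t a with hP
  have hstep : ∀ b, t b = greedyStep A l b (P b) := fun b => greedy_eq A l b
  have hone : ∀ b (x y : X), x ∈ t b → y ∈ t b → x = y := by
    intro b x y hx hy
    rw [hstep b] at hx hy
    unfold greedyStep at hx hy
    split_ifs at hx hy
    · exact absurd hx (Set.notMem_empty x)
    · rw [Set.mem_singleton_iff] at hx hy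
      rw [hx, hy]
    · exact absurd hx (Set.notMem_empty x)
  have hsub : ∀ b, t b ⊆ A b := by
    intro b x hx
    rw [hstep b] at hx
    unfold greedyStep at hx
    split_ifs at hx with h1 h2
    · exact absurd hx (Set.notMem_empty x)
    · rw [Set.mem_singleton_iff] at hx
      rw [hx]
      exact h2.some_mem.1
    · exact absurd hx (Set.notMem_empty x)
  have hempty : ∀ b x, x ∈ t b → ¬ (P b ∩ A b).Nonempty := by
    intro b x hx h1
    rw [hstep b] at hx
    unfold greedyStep at hx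
    rw [if_pos h1] at hx
    exact absurd hx (Set.notMem_empty x)
  have hbad : ∀ b x c, x ∈ t b → c ≠ b → l ≤ #(P b ∩ A c : Set X) → x ∉ A c := by
    intro b x c hx hcb hlc hxc
    rw [hstep b] at hx
    unfold greedyStep at hx
    split_ifs at hx with h1 h2
    · exact absurd hx (Set.notMem_empty x)
    · rw [Set.mem_singleton_iff] at hx
      have h3 := h2.some_mem.2
      apply h3
      rw [← hx]
      simp only [Set.mem_iUnion]
      exact ⟨c, ⟨hcb, hlc⟩, hxc⟩
    · exact absurd hx (Set.notMem_empty x)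
  have ht1 : ∀ b, #(t b) ≤ 1 := by
    intro b
    rw [Cardinal.le_one_iff_subsingleton]
    exact ⟨fun x y => Subtype.ext (hone b x y x.2 y.2)⟩
  have hPk : ∀ b, #(P b) < k := by
    intro b
    have h1 : P b = ⋃ a : Iio b, t a.1 := by
      ext x
      simp [P]
    rw [h1]
    calc #(⋃ a : Iio b, t a.1) ≤ Cardinal.sum (fun a : Iio b => #(t a.1)) := mk_iUnion_le_sum_mk
      _ ≤ Cardinal.sum (fun _ : Iio b => (1 : Cardinal.{u})) := Cardinal.sum_le_sum _ _ (fun a => ht1 a.1)
      _ = #(Iio b) := by simp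
      _ < k := hI b
  have hhit : ∀ b, ((P b ∪ t b) ∩ A b).Nonempty := by
    intro b
    by_cases h1 : (P b ∩ A b).Nonempty
    · obtain ⟨x, hx⟩ := h1
      exact ⟨x, Or.inl hx.1, hx.2⟩
    · have h2 : (A b \ ⋃ c ∈ {c | c ≠ b ∧ l ≤ #(P b ∩ A c : Set X)}, A c).Nonempty := by
        by_contra hcon
        rw [Set.not_nonempty_iff_eq_empty, Set.sdiff_eq_empty] at hcon
        have h3 : A b ⊆ ⋃ c : {c | c ≠ b ∧ l ≤ #(P b ∩ A c : Set X)}, (A b ∩ A c.1) := by
          intro x hx
          have h4 := hcon hx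
          simp only [Set.mem_iUnion] at h4 ⊢
          obtain ⟨c, hc, hxc⟩ := h4
          exact ⟨⟨c, hc⟩, hx, hxc⟩
        have h5 : #(A b) < k := by
          calc #(A b) ≤ #(⋃ c : {c | c ≠ b ∧ l ≤ #(P b ∩ A c : Set X)}, (A b ∩ A c.1)) :=
                Cardinal.mk_le_mk_of_subset h3
            _ ≤ Cardinal.sum (fun c : {c | c ≠ b ∧ l ≤ #(P b ∩ A c : Set X)} =>
                  #(A b ∩ A c.1 : Set X)) := mk_iUnion_le_sum_mk
            _ ≤ Cardinal.sum (fun _ : {c | c ≠ b ∧ l ≤ #(P b ∩ A c : Set X)} => l) :=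
                Cardinal.sum_le_sum _ _ (fun c => (hA b c.1 (Ne.symm c.2.1)).le)
            _ = #{c | c ≠ b ∧ l ≤ #(P b ∩ A c : Set X)} * l := by
                rw [Cardinal.sum_const']
            _ < k := by
                apply Cardinal.mul_lt_of_lt hk _ hlk
                refine lt_of_le_of_lt (Cardinal.mk_le_mk_of_subset ?_) (H (P b) (hPk b))
                intro c hc
                exact hc.2
        exact absurd h5 (not_lt.mpr (hAk b))
      have h6 : t b = {h2.some} := by
        rw [hstep b]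
        unfold greedyStep
        rw [if_neg h1, dif_pos h2]
      refine ⟨h2.some, Or.inr ?_, h2.some_mem.1⟩
      rw [h6]
      exact Set.mem_singleton _
  have hPb : ∀ a b, a < b → t a ⊆ P b := by
    intro a b hab x hx
    simp only [P, Set.mem_iUnion]
    exact ⟨a, hab, hx⟩
  refine ⟨⋃ b, t b, ?_, ?_⟩
  · intro x hx
    rw [Set.mem_iUnion] at hx ⊢
    obtain ⟨b, hb⟩ := hx
    exact ⟨b, hsub b hb⟩
  · intro b
    constructor
    · obtain ⟨x, hx1, hx2⟩ := hhit b
      refine ⟨x, ?_, hx2⟩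
      rcases hx1 with hx1 | hx1
      · simp only [P, Set.mem_iUnion] at hx1
        obtain ⟨a, _, hxa⟩ := hx1
        exact Set.mem_iUnion.mpr ⟨a, hxa⟩
      · exact Set.mem_iUnion.mpr ⟨b, hx1⟩
    · -- the indices contributing a point of `A b`
      let J : Set I := {a | (t a ∩ A b).Nonempty}
      have hJ : ∀ a ∈ J, #(P a ∩ A b : Set X) < l := by
        intro a ha
        obtain ⟨x, hxa, hxb⟩ := ha
        by_cases hab : b = a
        · subst hab
          have h1 := hempty b x hxa
          rw [Set.not_nonempty_iff_eq_empty] at h1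
          rw [h1]
          simp only [Cardinal.mk_eq_zero]
          exact lt_of_lt_of_le zero_lt_one hl
        · by_contra hcon
          push Not at hcon
          exact hbad a x b hxa hab hcon hxb
      have hJl : #J ≤ l := by
        apply mk_le_of_initial
        intro a
        refine lt_of_le_of_lt ?_ (hJ a.1 a.2)
        have h1 : ∀ c : Iio a, ∃ x, x ∈ t c.1.1 ∧ x ∈ A b := fun c => c.1.2
        choose f hf1 hf2 using h1
        refine Cardinal.mk_le_of_injective
          (f := fun c => (⟨f c, hPb c.1.1 a.1 c.2 (hf1 c), hf2 c⟩ : (P a.1 ∩ A b : Set X))) ?_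
        intro c d hcd
        have hcd' : f c = f d := congrArg Subtype.val hcd
        rcases lt_trichotomy c.1.1 d.1.1 with h | h | h
        · exfalso
          apply hempty d.1.1 (f d) (hf1 d)
          refine ⟨f d, ?_, hsub _ (hf1 d)⟩
          rw [← hcd']
          exact hPb _ _ h (hf1 c)
        · exact Subtype.ext (Subtype.ext h)
        · exfalso
          apply hempty c.1.1 (f c) (hf1 c)
          refine ⟨f c, ?_, hsub _ (hf1 c)⟩
          rw [hcd']
          exact hPb _ _ h (hf1 d)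
      have h2 : (⋃ b, t b) ∩ A b ⊆ ⋃ a : J, t a.1 := by
        rintro x ⟨hx1, hx2⟩
        rw [Set.mem_iUnion] at hx1 ⊢
        obtain ⟨a, ha⟩ := hx1
        exact ⟨⟨a, ⟨x, ha, hx2⟩⟩, ha⟩
      calc #((⋃ b, t b) ∩ A b : Set X) ≤ #(⋃ a : J, t a.1) := Cardinal.mk_le_mk_of_subset h2
        _ ≤ Cardinal.sum (fun a : J => #(t a.1)) := mk_iUnion_le_sum_mk
        _ ≤ Cardinal.sum (fun _ : J => (1 : Cardinal.{u})) :=
            Cardinal.sum_le_sum _ _ (fun a => ht1 a.1)
        _ = #J := by simp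
        _ ≤ l := hJl

lemma pow_le_succ (gch : GCH.{u}) (t l : Cardinal.{u}) (hl : ℵ₀ ≤ l) : t ^ l ≤ succ (max t l) := by
  have h1 : t ≤ 2 ^ t := (Cardinal.cantor t).le
  calc t ^ l ≤ (2 ^ t) ^ l := Cardinal.power_le_power_right h1
    _ = 2 ^ (t * l) := by rw [Cardinal.power_mul]
    _ ≤ 2 ^ (max t l) := Cardinal.power_le_power_left two_ne_zero
        (Cardinal.mul_le_max_of_aleph0_le_right hl)
    _ = succ (max t l) := gch _ (hl.trans (le_max_right _ _))

/-- Under GCH, if `k` is a limit cardinal, then `t ^ l < k` for `t, l < k`, `l` infinite. -/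
lemma pow_lt_of_limit (gch : GCH.{u}) (k t l : Cardinal.{u}) (hl : ℵ₀ ≤ l) (ht : t < k)
    (hlk : l < k) (hk : IsSuccPrelimit k) : t ^ l < k :=
  lt_of_le_of_lt (pow_le_succ gch t l hl) (hk.succ_lt (max_lt ht hlk))

/-- if `#T < k`, `l` finite, `k` infinite. -/
lemma pow_lt_of_finite (k t l : Cardinal.{u}) (hk : ℵ₀ ≤ k) (ht : t < k) (hl : l < ℵ₀) :
    t ^ l < k := by
  obtain ⟨n, rfl⟩ := Cardinal.lt_aleph0.mp hl
  rcases lt_or_ge t ℵ₀ with h | h
  · exact lt_of_lt_of_le (Cardinal.power_lt_aleph0 h hl) hk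
  · exact lt_of_le_of_lt (Cardinal.power_nat_le h) ht

/-- A set `T` of size at most `e` meets at most `e` members of the family in `≥ l` points,
if `cof l ≠ cof e` and `l < e`. -/
lemma count_le_of_cof_ne (gch : GCH.{u}) {X I : Type u} (A : I → Set X) (e l : Cardinal.{u})
    (hl : ℵ₀ ≤ l) (hle : l < e) (hcof : l.ord.cof ≠ e.ord.cof)
    (hA : ∀ a b, a ≠ b → #(A a ∩ A b : Set X) < l) (T : Set X) (hT : #T ≤ e) :
    #{b | l ≤ #(T ∩ A b : Set X)} ≤ e := by
  classical
  have he : ℵ₀ ≤ e := hl.trans hle.le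
  -- embed `T` in `E = e.ord.ToType`
  let E := e.ord.ToType
  have hE : #E = e := Cardinal.mk_ord_toType e
  obtain ⟨f⟩ : Nonempty (T ↪ E) := by
    rw [← Cardinal.le_def, hE]
    exact hT
  obtain ⟨s, hs, hsc⟩ := Order.exists_cof_eq E
  have hsE : #s ≤ e := by
    rw [hsc]
    exact (Order.cof_le_cardinalMk E).trans_eq hE
  let Ti : s → Set X := fun i => {x | ∃ h : x ∈ T, f ⟨x, h⟩ < i.1}
  have hTi : ∀ i, #(Ti i) < e := by
    intro i
    refine lt_of_le_of_lt ?_ (mk_Iio_lt' i.1)
    refine Cardinal.mk_le_of_injective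
      (f := fun x : Ti i => (⟨f ⟨x.1, x.2.choose⟩, x.2.choose_spec⟩ : Iio i.1)) ?_
    intro x y hxy
    have h1 : f ⟨x.1, x.2.choose⟩ = f ⟨y.1, y.2.choose⟩ := congrArg Subtype.val hxy
    have h2 := congrArg Subtype.val (f.injective h1)
    exact Subtype.ext h2
  have hkey : {b | l ≤ #(T ∩ A b : Set X)} ⊆ ⋃ i, {b | l ≤ #(Ti i ∩ A b : Set X)} := by
    intro b hb
    by_contra hcon
    simp only [Set.mem_iUnion, not_exists] at hcon
    have hcon' : ∀ i, #(Ti i ∩ A b : Set X) < l := fun i => not_le.mp (hcon i)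
    apply hcof
    obtain ⟨Y, hY1, hY2⟩ := Cardinal.le_mk_iff_exists_subset.mp hb
    -- the range of `Y` in `E`
    let R : Set E := {z | ∃ x, ∃ h : x ∈ Y, f ⟨x, (hY1 h).1⟩ = z}
    have hRc : #R = l := by
      rw [← hY2]
      apply Eq.symm
      apply Cardinal.mk_congr
      refine Equiv.ofBijective (fun x : Y => (⟨f ⟨x.1, (hY1 x.2).1⟩, ⟨x.1, x.2, rfl⟩⟩ : R)) ?_
      constructor
      · intro x y hxy
        have h1 : f ⟨x.1, (hY1 x.2).1⟩ = f ⟨y.1, (hY1 y.2).1⟩ := congrArg Subtype.val hxy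
        have h2 := congrArg Subtype.val (f.injective h1)
        exact Subtype.ext h2
      · rintro ⟨z, x, hx, rfl⟩
        exact ⟨⟨x, hx⟩, rfl⟩
    have hRs : ∀ i : s, #(R ∩ Iio i.1 : Set E) < l := by
      intro i
      refine lt_of_le_of_lt ?_ (hcon' i)
      have h3 : ∀ z : (R ∩ Iio i.1 : Set E), ∃ x, ∃ h : x ∈ Y, f ⟨x, (hY1 h).1⟩ = z.1 :=
        fun z => z.2.1
      choose g hg1 hg2 using h3
      refine Cardinal.mk_le_of_injective
        (f := fun z => (⟨g z, ⟨(hY1 (hg1 z)).1, by rw [hg2 z]; exact z.2.2⟩,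
          (hY1 (hg1 z)).2⟩ : (Ti i ∩ A b : Set X))) ?_
      intro z w hzw
      have h4 : g z = g w := congrArg Subtype.val hzw
      apply Subtype.ext
      rw [← hg2 z, ← hg2 w]
      simp only [h4]
    have hRcof : IsCofinal R := by
      by_contra hR
      rw [not_isCofinal_iff] at hR
      obtain ⟨x, hx⟩ := hR
      obtain ⟨i, hi, hxi⟩ := hs x
      have h5 : R ∩ Iio i = R := by
        rw [Set.inter_eq_left]
        intro z hz
        exact lt_of_lt_of_le (hx z hz) hxi
      have h6 := hRs ⟨i, hi⟩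
      simp only at h6
      rw [h5, hRc] at h6
      exact lt_irrefl _ h6
    have h7 : Order.cof R = Order.cof E := Order.cof_eq_of_isCofinal hRcof
    have h8 : Ordinal.type (α := R) (· < ·) = l.ord := by
      rw [← hRc]
      apply type_eq_of_initial
      intro a
      rw [hRc]
      obtain ⟨i, hi, hxi⟩ := hs a.1
      refine lt_of_le_of_lt ?_ (hRs ⟨i, hi⟩)
      refine Cardinal.mk_le_of_injective
        (f := fun c : Iio a => (⟨c.1.1, c.1.2, lt_of_lt_of_le c.2 hxi⟩ :
          (R ∩ Iio (⟨i, hi⟩ : s).1 : Set E))) ?_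
      intro c d hcd
      have h9 := congrArg Subtype.val hcd
      exact Subtype.ext (Subtype.ext h9)
    rw [← h8, Ordinal.cof_type, h7, Ordinal.cof_toType]
  calc #{b | l ≤ #(T ∩ A b : Set X)} ≤ #(⋃ i, {b | l ≤ #(Ti i ∩ A b : Set X)}) :=
        Cardinal.mk_le_mk_of_subset hkey
    _ ≤ Cardinal.sum (fun i => #{b | l ≤ #(Ti i ∩ A b : Set X)}) := mk_iUnion_le_sum_mk
    _ ≤ Cardinal.sum (fun _ : s => e) := by
        apply Cardinal.sum_le_sum
        intro i
        refine (count_le A l hA (Ti i)).trans ((pow_le_succ gch _ l hl).trans ?_)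
        exact Order.succ_le_of_lt (max_lt (hTi i) hle)
    _ = #s * e := by rw [Cardinal.sum_const']
    _ ≤ e * e := mul_le_mul_left hsE e
    _ = e := Cardinal.mul_eq_self he

end Pool.Agent.Helper61
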