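import Mathlib
import Pool.Agent.Helper61.TransvBasic

set_option autoImplicit false

open Cardinal Ordinal Set Order

universe u

namespace Pool.Agent.Helper61

section Club

variable {k : Cardinal.{u}}

lemma cof_toType_eq (hk : k.IsRegular) : Order.cof k.ord.ToType = k := by
  rw [Ordinal.cof_toType, hk.cof_ord]

/-- Small subsets of a regular cardinal are bounded. -/
lemma exists_bound (hk : k.IsRegular) (s : Set k.ord.ToType) (hs : #s < k) :
    ∃ x, ∀ y ∈ s, y < x := by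
  by_contra hcon
  have h : IsCofinal s := by
    by_contra h
    rw [not_isCofinal_iff] at h
    exact hcon h
  have h1 := Order.cof_le h
  rw [cof_toType_eq hk] at h1
  exact absurd hs (not_lt.mpr h1)

lemma isClub_closure (hk : k.IsRegular) (hk' : ℵ₀ < k) (f : k.ord.ToType → k.ord.ToType) :
    IsClub {x : k.ord.ToType | ∀ z < x, f z < x} := by
  constructor
  · intro d hd hne _ a ha z hz
    obtain ⟨x, hx, hzx⟩ := (lt_isLUB_iff ha).mp hz
    exact lt_of_lt_of_le (hd hx z hzx) (ha.1 hx)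
  · have hstep : ∀ x : k.ord.ToType, ∃ y, x < y ∧ ∀ z ≤ x, f z < y := by
      intro x
      have h1 : #(insert x (f '' (insert x (Iio x))) : Set k.ord.ToType) < k := by
        have h2 : #(insert x (Iio x) : Set k.ord.ToType) < k := by
          refine lt_of_le_of_lt Cardinal.mk_insert_le ?_
          exact Cardinal.add_lt_of_lt hk.aleph0_le (mk_Iio_lt' x)
            (lt_of_lt_of_le Cardinal.one_lt_aleph0 hk.aleph0_le)
        refine lt_of_le_of_lt Cardinal.mk_insert_le ?_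
        exact Cardinal.add_lt_of_lt hk.aleph0_le (lt_of_le_of_lt Cardinal.mk_image_le h2)
          (lt_of_lt_of_le Cardinal.one_lt_aleph0 hk.aleph0_le)
      obtain ⟨y, hy⟩ := exists_bound hk _ h1
      refine ⟨y, hy x (Set.mem_insert _ _), ?_⟩
      intro z hz
      apply hy
      right
      refine ⟨z, ?_, rfl⟩
      rcases lt_or_eq_of_le hz with h | h
      · right
        exact h
      · left
        exact h
    choose g hg1 hg2 using hstep
    intro x
    have hb : ∃ y, ∀ z ∈ Set.range (fun n : ℕ => g^[n] x), z < y := by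
      apply exists_bound hk
      refine lt_of_le_of_lt ?_ hk'
      have := Cardinal.mk_range_le_lift (f := fun n : ℕ => g^[n] x)
      simpa using this
    let U : Set k.ord.ToType := {y | ∀ n : ℕ, g^[n] x ≤ y}
    have hU : U.Nonempty := by
      obtain ⟨y, hy⟩ := hb
      exact ⟨y, fun n => (hy _ ⟨n, rfl⟩).le⟩
    let m := WellFounded.min (wellFounded_lt (α := k.ord.ToType)) U hU
    have hm : m ∈ U := WellFounded.min_mem _ U hU
    refine ⟨m, ?_, hm 0⟩
    intro z hz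
    have h1 : ¬ ∀ n : ℕ, g^[n] x ≤ z := by
      intro hcon
      exact WellFounded.not_lt_min (wellFounded_lt (α := k.ord.ToType)) U (x := z) hcon hz
    push Not at h1
    obtain ⟨n, hn⟩ := h1
    have h2 := hg2 (g^[n] x) z hn.le
    have h3 := hm (n + 1)
    rw [Function.iterate_succ_apply'] at h3
    exact lt_of_lt_of_le h2 h3

end Club

/-- If there is no stationary almost disjoint family, then almost disjoint families of `e⁺` sets
of size `e⁺` have `l⁺`-transversals. -/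
theorem exists_transversal_of_not_sad (gch : GCH.{u}) (e l : Cardinal.{u}) (hl : ℵ₀ ≤ l)
    (hle : l < e) (helim : IsSuccPrelimit e)
    (hsad : ¬ StationaryAlmostDisjoint (succ e) l)
    (A : (succ e).ord.ToType → Set (succ e).ord.ToType) (hAk : ∀ b, #(A b) = succ e)
    (hA : ∀ a b, a ≠ b → #(A a ∩ A b : Set (succ e).ord.ToType) < l) :
    ∃ T : Set (succ e).ord.ToType, ∀ b, (T ∩ A b).Nonempty ∧
      #(T ∩ A b : Set (succ e).ord.ToType) ≤ l := by
  classical
  have he : ℵ₀ ≤ e := hl.trans hle.le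
  have hreg : (succ e).IsRegular := Cardinal.isRegular_succ he
  have hunc : ℵ₀ < succ e := lt_of_le_of_lt he (Order.lt_succ e)
  let K := (succ e).ord.ToType
  have hcof : Order.cof K ≠ ℵ₀ := by
    rw [cof_toType_eq hreg]
    exact hunc.ne'
  have hseg : ∀ x : K, #(Iio x) ≤ e := fun x => Order.lt_succ_iff.mp (mk_Iio_lt' x)
  -- a club on which all later sets have small traces
  have hclub1 : ∃ t : Set K, IsClub t ∧ ∀ ξ ∈ t, ∀ a, ξ ≤ a → #(A a ∩ Iio ξ : Set K) ≤ l := by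
    set S₀ : Set K := {ξ | ∃ a, ξ ≤ a ∧ succ l ≤ #(A a ∩ Iio ξ : Set K)} with hS₀
    have hns : ¬ IsStationary S₀ := by
      intro hst
      apply hsad
      have h1 : ∀ ξ : K, ∃ a, ∃ C : Set K, ξ ∈ S₀ → (ξ ≤ a ∧ C ⊆ A a ∩ Iio ξ ∧ #C = succ l) := by
        intro ξ
        by_cases h : ξ ∈ S₀
        · obtain ⟨a, ha1, ha2⟩ := h
          obtain ⟨C, hC1, hC2⟩ := Cardinal.le_mk_iff_exists_subset.mp ha2
          exact ⟨a, C, fun _ => ⟨ha1, hC1, hC2⟩⟩
        · exact ⟨ξ, ∅, fun h' => absurd h' h⟩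
      choose a C hC using h1
      have hE := isClub_closure hreg hunc a
      refine ⟨S₀ ∩ {x | ∀ z < x, a z < x}, C, ?_, ?_, ?_⟩
      · intro t ht
        have h2 := hst (hE.inter hcof ht)
        rw [Set.inter_assoc]
        exact h2
      · intro δ hδ
        obtain ⟨_, h2, h3⟩ := hC δ hδ.1
        exact ⟨fun x hx => (h2 hx).2, h3⟩
      · intro δ hδ ε hε hne
        obtain ⟨h1, h2, _⟩ := hC δ hδ.1
        obtain ⟨h4, h5, _⟩ := hC ε hε.1
        have hne' : a δ ≠ a ε := by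
          rcases lt_or_gt_of_ne hne with h | h
          · exact (lt_of_lt_of_le (hε.2 δ h) h4).ne
          · exact (lt_of_lt_of_le (hδ.2 ε h) h1).ne'
        refine lt_of_le_of_lt (Cardinal.mk_le_mk_of_subset ?_) (hA _ _ hne')
        rintro x ⟨hx1, hx2⟩
        exact ⟨(h2 hx1).1, (h5 hx2).1⟩
    rw [not_isStationary_iff] at hns
    obtain ⟨t, ht, hdis⟩ := hns
    refine ⟨t, ht, ?_⟩
    intro ξ hξ a ha
    by_contra hcon
    push Not at hcon
    exact Set.disjoint_left.mp hdis ⟨a, ha, Order.succ_le_of_lt hcon⟩ hξ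
  obtain ⟨t, ht, htA⟩ := hclub1
  -- the function `h`
  have hh : ∀ a : K, ∃ x : K, e ≤ #((A a ∩ Iio x) \ ⋃ b : Iio a, A b.1 : Set K) := by
    intro a
    set Y : Set K := A a \ ⋃ b : Iio a, A b.1 with hY
    have h1 : #(A a ∩ ⋃ b : Iio a, A b.1 : Set K) ≤ e := by
      have h2 : A a ∩ ⋃ b : Iio a, A b.1 = ⋃ b : Iio a, (A a ∩ A b.1) := Set.inter_iUnion _ _
      rw [h2]
      calc #(⋃ b : Iio a, (A a ∩ A b.1)) ≤ Cardinal.sum (fun b : Iio a => #(A a ∩ A b.1 : Set K)) :=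
            mk_iUnion_le_sum_mk
        _ ≤ Cardinal.sum (fun _ : Iio a => l) :=
            Cardinal.sum_le_sum _ _ (fun b => (hA a b.1 (ne_of_gt b.2)).le)
        _ = #(Iio a) * l := by rw [Cardinal.sum_const']
        _ ≤ e * e := mul_le_mul' (hseg a) hle.le
        _ = e := Cardinal.mul_eq_self he
    have h3 : e < #Y := by
      by_contra hcon
      push Not at hcon
      have h4 : #(A a) ≤ e := by
        have h5 : A a = (A a ∩ ⋃ b : Iio a, A b.1) ∪ Y := by
          rw [hY, Set.inter_union_sdiff]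
        rw [h5]
        calc #((A a ∩ ⋃ b : Iio a, A b.1) ∪ Y : Set K)
            ≤ #(A a ∩ ⋃ b : Iio a, A b.1 : Set K) + #Y := Cardinal.mk_union_le _ _
          _ ≤ e + e := add_le_add h1 hcon
          _ = e := Cardinal.add_eq_self he
      rw [hAk a] at h4
      exact absurd (Order.lt_succ e) (not_lt.mpr h4)
    obtain ⟨Z, hZ1, hZ2⟩ := Cardinal.le_mk_iff_exists_subset.mp h3.le
    obtain ⟨x, hx⟩ := exists_bound hreg Z (by rw [hZ2]; exact Order.lt_succ e)
    refine ⟨x, hZ2.symm.le.trans ?_⟩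
    apply Cardinal.mk_le_mk_of_subset
    intro z hz
    exact ⟨⟨(hZ1 hz).1, hx z hz⟩, (hZ1 hz).2⟩
  choose h hh using hh
  -- the club `D`
  set D : Set K := t ∩ {x | ∀ z < x, h z < x} with hD
  have hDclub : IsClub D := ht.inter hcof (isClub_closure hreg hunc h)
  have hDt : ∀ ξ ∈ D, ∀ a, ξ ≤ a → #(A a ∩ Iio ξ : Set K) ≤ l := fun ξ hξ => htA ξ hξ.1
  have hDh : ∀ ξ ∈ D, ∀ z < ξ, h z < ξ := fun ξ hξ => hξ.2
  -- next element of `D`
  have hnext : ∀ a : K, ∃ ν ∈ D, a < ν ∧ ∀ ξ ∈ D, a < ξ → ν ≤ ξ := by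
    intro a
    have h1 : {ξ | ξ ∈ D ∧ a < ξ}.Nonempty := by
      obtain ⟨b, hb⟩ := exists_bound hreg {a} (by
        rw [Cardinal.mk_singleton]
        exact lt_of_lt_of_le Cardinal.one_lt_aleph0 hreg.aleph0_le)
      obtain ⟨ξ, hξ, hbξ⟩ := hDclub.isCofinal b
      exact ⟨ξ, hξ, lt_of_lt_of_le (hb a rfl) hbξ⟩
    have h2 := WellFounded.min_mem (wellFounded_lt (α := K)) _ h1
    refine ⟨_, h2.1, h2.2, ?_⟩
    intro ξ hξ haξ
    exact not_lt.mp (WellFounded.not_lt_min (wellFounded_lt (α := K)) {ξ | ξ ∈ D ∧ a < ξ}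
      (x := ξ) (And.intro hξ haξ))
  choose nxt hnxtD hnxtlt hnxtmin using hnext
  -- the part below the block
  let Low : K → Set K := fun ν => {x | ∃ ξ ∈ D, ξ < ν ∧ x < ξ}
  have hLowsub : ∀ a, Low (nxt a) ⊆ Iio a := by
    rintro a x ⟨ξ, hξ, hξν, hxξ⟩
    have : ξ ≤ a := by
      by_contra hcon
      push Not at hcon
      exact absurd hξν (not_lt.mpr (hnxtmin a ξ hξ hcon))
    exact lt_of_lt_of_le hxξ this
  have hLowA : ∀ a, #(A a ∩ Low (nxt a) : Set K) ≤ l := by
    intro a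
    by_cases hne : (D ∩ Iio (nxt a)).Nonempty
    · -- there is a largest element of `D` below `nxt a`
      have hle' : ∀ ξ ∈ D ∩ Iio (nxt a), ξ ≤ a := by
        rintro ξ ⟨hξ, hξν⟩
        by_contra hcon
        push Not at hcon
        exact absurd hξν (not_lt.mpr (hnxtmin a ξ hξ hcon))
      let U : Set K := upperBounds (D ∩ Iio (nxt a))
      have hU : U.Nonempty := ⟨a, fun ξ hξ => hle' ξ hξ⟩
      let m := WellFounded.min (wellFounded_lt (α := K)) U hU
      have hmU : m ∈ U := WellFounded.min_mem _ U hU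
      have hlub : IsLUB (D ∩ Iio (nxt a)) m := by
        refine ⟨hmU, ?_⟩
        intro b hb
        exact not_lt.mp (WellFounded.not_lt_min (wellFounded_lt (α := K)) U (x := b) hb)
      have hmD : m ∈ D := hDclub.isLUB_mem Set.inter_subset_left hne hlub
      have hma : m ≤ a := hlub.2 (fun ξ hξ => hle' ξ hξ)
      refine (Cardinal.mk_le_mk_of_subset ?_).trans (hDt m hmD a hma)
      rintro x ⟨hx1, ξ, hξ, hξν, hxξ⟩
      exact ⟨hx1, lt_of_lt_of_le hxξ (hmU ⟨hξ, hξν⟩)⟩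
    · have h1 : A a ∩ Low (nxt a) = ∅ := by
        rw [Set.eq_empty_iff_forall_notMem]
        rintro x ⟨_, ξ, hξ, hξν, _⟩
        exact hne ⟨ξ, hξ, hξν⟩
      rw [h1, Cardinal.mk_eq_zero]
      exact bot_le
  -- the construction in a block
  have hblock : ∀ ν : K, ∃ T : Set K, T ⊆ Iio ν \ (⋃ b ∈ Low ν, A b) ∧
      ∀ a, nxt a = ν → (T ∩ A a).Nonempty ∧ #(T ∩ A a : Set K) ≤ l := by
    intro ν
    set B : Set K := {a | nxt a = ν} with hB
    have hBsub : B ⊆ Iio ν := by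
      intro a ha
      have ha' : nxt a = ν := ha
      rw [← ha']
      exact hnxtlt a
    have hBe : #B ≤ e := (Cardinal.mk_le_mk_of_subset hBsub).trans (hseg ν)
    obtain ⟨φ⟩ : Nonempty ((#B).ord.ToType ≃ B) := by
      rw [← Cardinal.eq, Cardinal.mk_ord_toType]
    let A' : B → Set K := fun a => (A a.1 ∩ Iio ν) \ ⋃ b ∈ Low ν, A b
    have hA'e : ∀ a, e ≤ #(A' a) := by
      intro a
      refine (hh a.1).trans (Cardinal.mk_le_mk_of_subset ?_)
      have haν : nxt a.1 = ν := a.2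
      rintro x ⟨⟨hx1, hx2⟩, hx3⟩
      refine ⟨⟨hx1, ?_⟩, ?_⟩
      · have h1 : h a.1 < ν := by
          rw [← haν]
          exact hDh _ (hnxtD a.1) a.1 (hnxtlt a.1)
        exact lt_trans hx2 h1
      · intro hcon
        apply hx3
        simp only [Set.mem_iUnion] at hcon ⊢
        obtain ⟨b, hb, hxb⟩ := hcon
        rw [← haν] at hb
        exact ⟨⟨b, hLowsub a.1 hb⟩, hxb⟩
    have hA'A : ∀ a b : B, a ≠ b → #(A' a ∩ A' b : Set K) < l := by
      intro a b hab
      refine lt_of_le_of_lt (Cardinal.mk_le_mk_of_subset ?_)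
        (hA a.1 b.1 (fun h => hab (Subtype.ext h)))
      rintro x ⟨hx1, hx2⟩
      exact ⟨hx1.1.1, hx2.1.1⟩
    obtain ⟨T, hT1, hT2⟩ := greedy_lemma (I := (#B).ord.ToType) (fun i => A' (φ i)) e l he
      (Cardinal.one_le_aleph0.trans hl) hle
      (fun b => lt_of_lt_of_le (mk_Iio_lt' b) hBe) (fun b => hA'e (φ b))
      (fun a b hab => hA'A (φ a) (φ b) (fun h => hab (φ.injective h)))
      (fun T₀ hT₀ => lt_of_le_of_lt
        (count_le (fun i => A' (φ i)) l
          (fun a b hab => hA'A (φ a) (φ b) (fun h => hab (φ.injective h))) T₀)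
        (pow_lt_of_limit gch e (#T₀) l hl hT₀ hle helim))
    refine ⟨T, ?_, ?_⟩
    · intro x hx
      obtain ⟨i, hi⟩ := Set.mem_iUnion.mp (hT1 hx)
      exact ⟨hi.1.2, hi.2⟩
    · intro a ha
      have h1 := hT2 (φ.symm ⟨a, ha⟩)
      simp only [Equiv.apply_symm_apply] at h1
      have h2 : T ∩ A a = T ∩ A' ⟨a, ha⟩ := by
        ext x
        constructor
        · rintro ⟨hx1, hx2⟩
          obtain ⟨i, hi⟩ := Set.mem_iUnion.mp (hT1 hx1)
          exact ⟨hx1, ⟨hx2, hi.1.2⟩, hi.2⟩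
        · rintro ⟨hx1, hx2⟩
          exact ⟨hx1, hx2.1.1⟩
      rw [h2]
      exact h1
  choose Tb hTb1 hTb2 using hblock
  refine ⟨⋃ b, Tb (nxt b), ?_⟩
  intro a
  constructor
  · obtain ⟨x, hx1, hx2⟩ := (hTb2 (nxt a) a rfl).1
    exact ⟨x, Set.mem_iUnion.mpr ⟨a, hx1⟩, hx2⟩
  · have hsub : (⋃ b, Tb (nxt b)) ∩ A a ⊆ (A a ∩ Low (nxt a)) ∪ (Tb (nxt a) ∩ A a) := by
      rintro x ⟨hx1, hx2⟩
      obtain ⟨b, hb⟩ := Set.mem_iUnion.mp hx1
      rcases lt_trichotomy (nxt b) (nxt a) with h1 | h1 | h1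
      · left
        exact ⟨hx2, nxt b, hnxtD b, h1, (hTb1 (nxt b) hb).1⟩
      · right
        rw [← h1]
        exact ⟨hb, hx2⟩
      · exfalso
        apply (hTb1 (nxt b) hb).2
        simp only [Set.mem_iUnion]
        exact ⟨a, ⟨nxt a, hnxtD a, h1, hnxtlt a⟩, hx2⟩
    calc #((⋃ b, Tb (nxt b)) ∩ A a : Set K)
        ≤ #((A a ∩ Low (nxt a)) ∪ (Tb (nxt a) ∩ A a) : Set K) := Cardinal.mk_le_mk_of_subset hsub
      _ ≤ #(A a ∩ Low (nxt a) : Set K) + #(Tb (nxt a) ∩ A a : Set K) := Cardinal.mk_union_le _ _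
      _ ≤ l + l := add_le_add (hLowA a) (hTb2 (nxt a) a rfl).2
      _ = l := Cardinal.add_eq_self hl

end Pool.Agent.Helper61
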