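import Mathlib
import Pool.Agent.Helper61.TransvPos

set_option autoImplicit false

open Cardinal Ordinal Set Order

universe u

namespace Pool.Agent.Helper61

/-- A limit cardinal argument. -/
lemma isSuccLimit_of_cof (e l : Cardinal.{u}) (hl : ℵ₀ ≤ l) (hle : l < e)
    (hcof : l.ord.cof = e.ord.cof) : IsSuccLimit e := by
  have he : ℵ₀ ≤ e := hl.trans hle.le
  have h1 : ¬ e.IsRegular := by
    intro h
    have h2 := h.cof_ord
    rw [← hcof] at h2
    have h3 : l.ord.cof ≤ l := Ordinal.cof_ord_le l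
    rw [h2] at h3
    exact absurd hle (not_lt.mpr h3)
  exact (IsSingular.of_not_isRegular he h1).isSuccLimit

/-- The ground set of the counterexample. -/
abbrev TX (H K : Type u) : Type u := (H × K × K) ⊕ (K × H × K)

lemma exists_gt_toType {e : Cardinal.{u}} (he : ℵ₀ ≤ e) (x : e.ord.ToType) : ∃ y, x < y := by
  by_contra hcon
  push Not at hcon
  have h1 : (Set.univ : Set e.ord.ToType) ⊆ insert x (Iio x) := by
    intro y _
    rcases lt_or_eq_of_le (hcon y) with h | h
    · right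
      exact h
    · left
      exact h
  have h2 : #e.ord.ToType < e := by
    calc #e.ord.ToType = #(Set.univ : Set e.ord.ToType) := Cardinal.mk_univ.symm
      _ ≤ #(insert x (Iio x) : Set e.ord.ToType) := Cardinal.mk_le_mk_of_subset h1
      _ ≤ #(Iio x) + 1 := Cardinal.mk_insert_le
      _ < e := Cardinal.add_lt_of_lt he (mk_Iio_lt' x) (lt_of_lt_of_le Cardinal.one_lt_aleph0 he)
  rw [Cardinal.mk_ord_toType] at h2
  exact lt_irrefl _ h2

/-- A stationary almost disjoint family gives a family without `l⁺`-transversal. -/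
theorem not_hasTransversals_of_sad (gch : GCH.{u}) (e l : Cardinal.{u}) (hl : ℵ₀ ≤ l)
    (hle : l < e) (hcof : l.ord.cof = e.ord.cof)
    (hsad : StationaryAlmostDisjoint (succ e) l) : ¬ HasTransversals (succ e) l := by
  classical
  have he : ℵ₀ ≤ e := hl.trans hle.le
  have hlim : IsSuccLimit e := isSuccLimit_of_cof e l hl hle hcof
  have hsle : succ l < e := hlim.succ_lt hle
  have hreg : (succ e).IsRegular := Cardinal.isRegular_succ he
  have hunc : ℵ₀ < succ e := lt_of_le_of_lt he (Order.lt_succ e)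
  obtain ⟨S, C, hS, hC, hCC⟩ := hsad
  let K := (succ e).ord.ToType
  let H := e.ord.ToType
  have hK : #K = succ e := Cardinal.mk_ord_toType _
  have hH : #H = e := Cardinal.mk_ord_toType _
  have hKinf : ℵ₀ ≤ #K := by rw [hK]; exact hunc.le
  have : Infinite K := Cardinal.infinite_iff.mpr hKinf
  have : Infinite H := Cardinal.infinite_iff.mpr (by rw [hH]; exact he)
  have hseg : ∀ x : K, #(Iio x) ≤ e := fun x => Order.lt_succ_iff.mp (mk_Iio_lt' x)
  -- functions `H → K` are coded by elements of `K`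
  obtain ⟨dec⟩ : Nonempty (K ≃ (H → K)) := by
    rw [← Cardinal.eq]
    have h1 : #(H → K) = #K ^ #H := rfl
    rw [h1, hK, hH, ← gch e he, ← Cardinal.power_mul, Cardinal.mul_eq_self he]
  -- decompositions
  have hf : ∀ δ : K, Nonempty (Iio δ ↪ H) := by
    intro δ
    rw [← Cardinal.le_def, hH]
    exact hseg δ
  let f : ∀ δ : K, Iio δ ↪ H := fun δ => (hf δ).some
  obtain ⟨s, hs, hsc⟩ := Order.exists_cof_eq H
  have hsl : #s ≤ l := by
    rw [hsc, Ordinal.cof_toType, ← hcof]
    exact Ordinal.cof_ord_le l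
  -- the guesses
  let G : ∀ δ : K, Set (C δ → K) := fun δ =>
    {g | ∃ i ∈ s, ∀ α, ∃ h : g α < δ, f δ ⟨g α, h⟩ < i}
  have hG : ∀ δ ∈ S, #(G δ) ≤ #H := by
    intro δ hδ
    have h1 : G δ ⊆ ⋃ i : s, {g | ∀ α, ∃ h : g α < δ, f δ ⟨g α, h⟩ < i.1} := by
      rintro g ⟨i, hi, hg⟩
      exact Set.mem_iUnion.mpr ⟨⟨i, hi⟩, hg⟩
    have h2 : ∀ i : s, #{g : C δ → K | ∀ α, ∃ h : g α < δ, f δ ⟨g α, h⟩ < i.1} ≤ e := by
      intro i
      have h3 : #{g : C δ → K | ∀ α, ∃ h : g α < δ, f δ ⟨g α, h⟩ < i.1} ≤ #(C δ → Iio i.1) := by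
        refine Cardinal.mk_le_of_injective
          (f := fun g α => (⟨f δ ⟨g.1 α, (g.2 α).choose⟩, (g.2 α).choose_spec⟩ : Iio i.1)) ?_
        intro g g' hgg
        apply Subtype.ext
        funext α
        have h4 := congrArg Subtype.val (congrFun hgg α)
        have h5 := congrArg Subtype.val ((f δ).injective h4)
        exact h5
      refine h3.trans ?_
      have h4 : #(C δ → Iio i.1) = #(Iio i.1) ^ #(C δ) := rfl
      rw [h4, (hC δ hδ).2]
      refine (pow_le_succ gch _ _ (hl.trans (Order.le_succ l))).trans ?_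
      exact (hlim.succ_lt (max_lt (mk_Iio_lt' i.1) hsle)).le
    calc #(G δ) ≤ #(⋃ i : s, {g : C δ → K | ∀ α, ∃ h : g α < δ, f δ ⟨g α, h⟩ < i.1}) :=
          Cardinal.mk_le_mk_of_subset h1
      _ ≤ Cardinal.sum (fun i : s =>
            #{g : C δ → K | ∀ α, ∃ h : g α < δ, f δ ⟨g α, h⟩ < i.1}) := mk_iUnion_le_sum_mk
      _ ≤ Cardinal.sum (fun _ : s => e) := Cardinal.sum_le_sum _ _ h2
      _ = #s * e := by rw [Cardinal.sum_const']
      _ ≤ e * e := mul_le_mul_left (hsl.trans hle.le) e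
      _ = #H := by rw [Cardinal.mul_eq_self he, hH]
  have hgd : ∀ δ : K, ∃ gd : H → (C δ → K), δ ∈ S → G δ ⊆ Set.range gd := by
    intro δ
    by_cases hδ : δ ∈ S
    · obtain ⟨ι⟩ : Nonempty (G δ ↪ H) := by
        rw [← Cardinal.le_def]
        exact hG δ hδ
      refine ⟨fun i => if h : ∃ g, ι g = i then h.choose.1 else fun _ => Classical.arbitrary K,
        fun _ => ?_⟩
      intro g hg
      refine ⟨ι ⟨g, hg⟩, ?_⟩
      have h : ∃ g', ι g' = ι ⟨g, hg⟩ := ⟨⟨g, hg⟩, rfl⟩
      simp only [dif_pos h]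
      have h2 := ι.injective h.choose_spec
      rw [h2]
    · exact ⟨fun _ _ => Classical.arbitrary K, fun h => absurd h hδ⟩
  choose gd hgd using hgd
  -- the family
  let I := (H × K) ⊕ (S × H)
  let F : I → Set (TX H K) := fun p => match p with
    | .inl (i, α) => Set.range (fun x : K => (Sum.inl (i, α, x) : TX H K))
    | .inr (δ, j) => Set.range (fun α : C δ.1 => (Sum.inl (j, α.1, dec (gd δ.1 j α) j) : TX H K)) ∪
        Set.range (fun x : K => (Sum.inr (δ.1, j, x) : TX H K))
  have hFcard : ∀ p, #(F p) = succ e := by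
    rintro (⟨i, α⟩ | ⟨δ, j⟩)
    · show #(Set.range (fun x : K => (Sum.inl (i, α, x) : TX H K))) = succ e
      rw [Cardinal.mk_range_eq, hK]
      intro x y hxy
      simpa using hxy
    · apply le_antisymm
      · show #(Set.range (fun α : C δ.1 => (Sum.inl (j, α.1, dec (gd δ.1 j α) j) : TX H K)) ∪
          Set.range (fun x : K => (Sum.inr (δ.1, j, x) : TX H K)) : Set (TX H K)) ≤ succ e
        calc _ ≤ #(Set.range (fun α : C δ.1 => (Sum.inl (j, α.1, dec (gd δ.1 j α) j) : TX H K))) +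
              #(Set.range (fun x : K => (Sum.inr (δ.1, j, x) : TX H K))) := Cardinal.mk_union_le _ _
          _ ≤ #(C δ.1) + #K := add_le_add Cardinal.mk_range_le Cardinal.mk_range_le
          _ ≤ succ e + succ e := by
              rw [hK, (hC δ.1 δ.2).2]
              exact add_le_add (hsle.le.trans (Order.le_succ e)) le_rfl
          _ = succ e := Cardinal.add_eq_self hunc.le
      · have h1 : #(Set.range (fun x : K => (Sum.inr (δ.1, j, x) : TX H K))) = succ e := by
          rw [Cardinal.mk_range_eq, hK]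
          intro x y hxy
          simpa using hxy
        exact h1.symm.le.trans (Cardinal.mk_le_mk_of_subset Set.subset_union_right)
  have hone : ∀ Y : Set (TX H K), Y.Subsingleton → #Y < l := by
    intro Y hY
    refine lt_of_le_of_lt ?_ (lt_of_lt_of_le Cardinal.one_lt_aleph0 hl)
    rw [Cardinal.le_one_iff_subsingleton]
    exact ⟨fun x y => Subtype.ext (hY x.2 y.2)⟩
  have hFF : ∀ p q, p ≠ q → #(F p ∩ F q : Set (TX H K)) < l := by
    rintro (⟨i, α⟩ | ⟨δ, j⟩) (⟨i', α'⟩ | ⟨δ', j'⟩) hpq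
    · apply hone
      rintro x ⟨⟨y, rfl⟩, ⟨z, hz⟩⟩
      exfalso
      simp only [Sum.inl.injEq, Prod.mk.injEq] at hz
      apply hpq
      rw [hz.1, hz.2.1]
    · apply hone
      rintro x ⟨⟨y, rfl⟩, h1⟩ x' ⟨⟨y', rfl⟩, h2⟩
      rcases h1 with ⟨a, ha⟩ | ⟨a, ha⟩
      · rcases h2 with ⟨b, hb⟩ | ⟨b, hb⟩
        · simp only [Sum.inl.injEq, Prod.mk.injEq] at ha hb
          have hab : a = b := Subtype.ext (ha.2.1.trans hb.2.1.symm)
          subst hab
          rw [← ha.2.2, ← hb.2.2]
        · simp at hb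
      · simp at ha
    · apply hone
      rintro x ⟨h1, ⟨y, rfl⟩⟩ x' ⟨h2, ⟨y', rfl⟩⟩
      rcases h1 with ⟨a, ha⟩ | ⟨a, ha⟩
      · rcases h2 with ⟨b, hb⟩ | ⟨b, hb⟩
        · simp only [Sum.inl.injEq, Prod.mk.injEq] at ha hb
          have hab : a = b := Subtype.ext (ha.2.1.trans hb.2.1.symm)
          subst hab
          rw [← ha.2.2, ← hb.2.2]
        · simp at hb
      · simp at ha
    · by_cases hδ : δ = δ'
      · subst hδ
        have hj : j ≠ j' := by
          rintro rfl
          exact hpq rfl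
        apply hone
        rintro x ⟨h1, h2⟩
        exfalso
        rcases h1 with ⟨a, rfl⟩ | ⟨a, rfl⟩
        · rcases h2 with ⟨b, hb⟩ | ⟨b, hb⟩
          · simp only [Sum.inl.injEq, Prod.mk.injEq] at hb
            exact hj hb.1.symm
          · simp at hb
        · rcases h2 with ⟨b, hb⟩ | ⟨b, hb⟩
          · simp at hb
          · simp only [Sum.inr.injEq, Prod.mk.injEq] at hb
            exact hj hb.2.1.symm
      · have hδ' : δ.1 ≠ δ'.1 := fun h => hδ (Subtype.ext h)
        refine lt_of_le_of_lt ?_ (hCC δ.1 δ.2 δ'.1 δ'.2 hδ')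
        have h3 : ∀ x ∈ (F (.inr (δ, j)) ∩ F (.inr (δ', j')) : Set (TX H K)),
            ∃ α, ∃ h : α ∈ C δ.1 ∩ C δ'.1, x = Sum.inl (j, α, dec (gd δ.1 j ⟨α, h.1⟩) j) := by
          rintro x ⟨h1, h2⟩
          rcases h1 with ⟨a, rfl⟩ | ⟨a, rfl⟩
          · rcases h2 with ⟨b, hb⟩ | ⟨b, hb⟩
            · simp only [Sum.inl.injEq, Prod.mk.injEq] at hb
              refine ⟨a.1, ⟨a.2, ?_⟩, rfl⟩
              rw [← hb.2.1]
              exact b.2
            · simp at hb
          · rcases h2 with ⟨b, hb⟩ | ⟨b, hb⟩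
            · simp at hb
            · simp only [Sum.inr.injEq, Prod.mk.injEq] at hb
              exact absurd hb.1.symm hδ'
        choose α hα hx using h3
        refine Cardinal.mk_le_of_injective (f := fun x => (⟨α x.1 x.2, hα x.1 x.2⟩ :
          (C δ.1 ∩ C δ'.1 : Set K))) ?_
        intro x y hxy
        have h4 : α x.1 x.2 = α y.1 y.2 := congrArg Subtype.val hxy
        apply Subtype.ext
        rw [hx x.1 x.2, hx y.1 y.2]
        simp only [h4]
  have hFinj : Function.Injective F := by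
    intro p q hpq
    by_contra hne
    have h1 := hFF p q hne
    rw [← hpq, Set.inter_self, hFcard] at h1
    exact absurd (h1.trans hle) (not_lt.mpr (Order.le_succ e))
  have hIcard : #I = succ e := by
    have h1 : #I = #H * #K + #S * #H := by
      simp [I]
    rw [h1, hK, hH]
    apply le_antisymm
    · calc e * succ e + #S * e ≤ succ e * succ e + succ e * succ e := by
            apply add_le_add
            · exact mul_le_mul_left (Order.le_succ e) _
            · apply mul_le_mul' _ (Order.le_succ e)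
              exact (Cardinal.mk_set_le S).trans hK.le
        _ = succ e := by
            rw [Cardinal.mul_eq_self hunc.le, Cardinal.add_eq_self hunc.le]
    · calc succ e = 1 * succ e := (one_mul _).symm
        _ ≤ e * succ e := mul_le_mul_left (Cardinal.one_le_aleph0.trans he) _
        _ ≤ e * succ e + #S * e := le_self_add
  intro hT
  obtain ⟨T, hT⟩ := hT (TX H K) (Set.range F) (by rw [Cardinal.mk_range_eq F hFinj, hIcard])
    (by rintro A ⟨p, rfl⟩; exact hFcard p)
    (by
      apply csInf_le'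
      rintro A ⟨p, rfl⟩ B ⟨q, rfl⟩ hne
      exact hFF p q (fun h => hne (by rw [h])))
  have hTF : ∀ p, (T ∩ F p).Nonempty ∧ #(T ∩ F p : Set (TX H K)) < succ l := fun p => hT _ ⟨p, rfl⟩
  -- the choice function given by the transversal
  have htt : ∀ (i : H) (α : K), ∃ x : K, (Sum.inl (i, α, x) : TX H K) ∈ T := by
    intro i α
    obtain ⟨y, hy1, ⟨x, rfl⟩⟩ := (hTF (.inl (i, α))).1
    exact ⟨x, hy1⟩
  choose tt htt using htt
  let b : K → K := fun α => dec.symm (fun i => tt i α)
  obtain ⟨δ, hδS, hδb⟩ := hS (isClub_closure hreg hunc b)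
  have hCδ := hC δ hδS
  have hbδ : ∀ α : C δ, b α.1 < δ := fun α => hδb α.1 (hCδ.1 α.2)
  -- pigeonhole
  let P : s → Set (C δ) := fun i => {α | f δ ⟨b α.1, hbδ α⟩ < i.1}
  have hP : ∃ i, l < #(P i) := by
    by_contra hcon
    push Not at hcon
    have h1 : (Set.univ : Set (C δ)) ⊆ ⋃ i, P i := by
      intro α _
      obtain ⟨y, hy⟩ := exists_gt_toType he (f δ ⟨b α.1, hbδ α⟩)
      obtain ⟨i, hi, hyi⟩ := hs y
      exact Set.mem_iUnion.mpr ⟨⟨i, hi⟩, lt_of_lt_of_le hy hyi⟩
    have h2 : #(C δ) ≤ l := by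
      calc #(C δ) = #(Set.univ : Set (C δ)) := Cardinal.mk_univ.symm
        _ ≤ #(⋃ i, P i) := Cardinal.mk_le_mk_of_subset h1
        _ ≤ Cardinal.sum (fun i => #(P i)) := mk_iUnion_le_sum_mk
        _ ≤ Cardinal.sum (fun _ : s => l) := Cardinal.sum_le_sum _ _ hcon
        _ = #s * l := by rw [Cardinal.sum_const']
        _ ≤ l * l := mul_le_mul_left hsl l
        _ = l := Cardinal.mul_eq_self hl
    rw [hCδ.2] at h2
    exact absurd (Order.lt_succ l) (not_lt.mpr h2)
  obtain ⟨i, hi⟩ := hP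
  obtain ⟨α₀, hα₀⟩ : (P i).Nonempty := by
    rw [Set.nonempty_iff_ne_empty]
    rintro h
    rw [h, Cardinal.mk_eq_zero] at hi
    exact absurd hi (not_lt.mpr bot_le)
  let g : C δ → K := fun α => if α ∈ P i then b α.1 else b α₀.1
  have hg : g ∈ G δ := by
    refine ⟨i.1, i.2, ?_⟩
    intro α
    by_cases hα : α ∈ P i
    · have h1 : g α = b α.1 := if_pos hα
      refine ⟨by rw [h1]; exact hbδ α, ?_⟩
      simp only [h1]
      exact hα
    · have h1 : g α = b α₀.1 := if_neg hα
      refine ⟨by rw [h1]; exact hbδ α₀, ?_⟩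
      simp only [h1]
      exact hα₀
  obtain ⟨j, hj⟩ := hgd δ hδS hg
  have h1 : #(P i) ≤ #(T ∩ F (.inr (⟨δ, hδS⟩, j)) : Set (TX H K)) := by
    refine Cardinal.mk_le_of_injective
      (f := fun α : P i => (⟨Sum.inl (j, α.1.1, tt j α.1.1), htt j α.1.1, ?_⟩ :
        (T ∩ F (.inr (⟨δ, hδS⟩, j)) : Set (TX H K)))) ?_
    · left
      refine ⟨α.1, ?_⟩
      have h2 : gd δ j α.1 = b α.1.1 := by
        rw [hj]
        exact if_pos α.2
      simp only [h2, b, Equiv.apply_symm_apply]
    · intro α β hαβ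
      have h3 := congrArg Subtype.val hαβ
      simp only [Sum.inl.injEq, Prod.mk.injEq] at h3
      exact Subtype.ext (Subtype.ext h3.2.1)
  have h2 := lt_of_le_of_lt (Order.succ_le_of_lt hi)
    (lt_of_le_of_lt h1 (hTF (.inr (⟨δ, hδS⟩, j))).2)
  exact lt_irrefl _ h2

end Pool.Agent.Helper61
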